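import Mathlib

/-!
# Small vectors in ideals of the group ring of a finite abelian group

Every nonzero odd integral function on a finite abelian group has, up to a positive factor, an
integral combination of translates that is nonzero, odd, with values `0`, `1`, `-1`.
-/

set_option linter.unusedSectionVars false

open Finset Polynomial

namespace Pool.Agent.W537.PC

noncomputable section

section poly

theorem cyclo_dvd {m : ℕ} (hm : 0 < m) :
    (X ^ m - 1 : ℚ[X]) ∣ cyclotomic m ℚ * ∏ p ∈ m.primeFactors, (1 - X ^ (m / p)) := by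
  rw [← prod_cyclotomic_eq_X_pow_sub_one hm, ← Nat.cons_self_properDivisors hm.ne',
    Finset.prod_cons]
  refine mul_dvd_mul_left _ ?_
  refine Finset.prod_dvd_of_coprime ?_ ?_
  · intro i _ j _ hij
    exact cyclotomic.isCoprime_rat hij
  · intro d hd
    rw [Nat.mem_properDivisors] at hd
    obtain ⟨⟨e, he⟩, hlt⟩ := hd
    have he1 : e ≠ 1 := by
      rintro rfl
      omega
    obtain ⟨p, hp, q, hq⟩ := Nat.exists_prime_and_dvd he1
    have hpm : p ∈ m.primeFactors := by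
      rw [Nat.mem_primeFactors]
      exact ⟨hp, ⟨d * q, by rw [he, hq]; ring⟩, hm.ne'⟩
    refine dvd_trans ?_ (Finset.dvd_prod_of_mem _ hpm)
    have h1 : m / p = d * q := by
      rw [he, hq]
      rw [show d * (p * q) = p * (d * q) by ring]
      exact Nat.mul_div_cancel_left _ hp.pos
    have h2 : (X ^ d - 1 : ℚ[X]) ∣ X ^ (d * q) - 1 := by
      have := sub_dvd_pow_sub_pow (X ^ d : ℚ[X]) 1 q
      rwa [one_pow, ← pow_mul] at this
    rw [h1, ← neg_sub, dvd_neg]
    refine dvd_trans ?_ h2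
    rw [← prod_cyclotomic_eq_X_pow_sub_one (n := d) (by
      rcases Nat.eq_zero_or_pos d with h | h
      · rw [h, zero_mul] at he; omega
      · exact h)]
    exact Finset.dvd_prod_of_mem _ (Nat.mem_divisors_self d (by
      rintro rfl
      omega))

/-- The sum of the `m / p` over a set of prime factors. -/
def aS (m : ℕ) (S : Finset ℕ) : ℕ := ∑ p ∈ S, m / p

theorem mem_iff_aS {m : ℕ} (hm : 0 < m) {S : Finset ℕ} (hS : S ⊆ m.primeFactors) {q : ℕ}
    (hq : q ∈ m.primeFactors) : q ∈ S ↔ ¬ m ∣ (∏ p ∈ m.primeFactors.erase q, p) * aS m S := by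
  set r := ∏ p ∈ m.primeFactors.erase q, p with hr
  have hqp := Nat.prime_of_mem_primeFactors hq
  have hqm := Nat.dvd_of_mem_primeFactors hq
  have h1 : ∀ p ∈ m.primeFactors, p ≠ q → m ∣ r * (m / p) := by
    intro p hp hpq
    have h2 : p ∣ r := Finset.dvd_prod_of_mem _ (Finset.mem_erase.2 ⟨hpq, hp⟩)
    obtain ⟨s, hs⟩ := h2
    have h3 := Nat.div_mul_cancel (Nat.dvd_of_mem_primeFactors hp)
    exact ⟨s, by rw [hs, ← h3]; rw [Nat.mul_div_cancel _ (Nat.prime_of_mem_primeFactors hp).pos]; ring⟩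
  have h2 : ¬ m ∣ r * (m / q) := by
    intro h
    have h3 := Nat.div_mul_cancel hqm
    have h4 : q ∣ r := by
      have h5 : (m / q) * q ∣ (m / q) * r := by rw [h3, mul_comm _ r]; exact h
      exact Nat.dvd_of_mul_dvd_mul_left (Nat.div_pos (Nat.le_of_dvd hm hqm) hqp.pos) h5
    rw [hr] at h4
    obtain ⟨p, hp, hqp'⟩ := (Prime.dvd_finsetProd_iff hqp.prime _).1 h4
    have h5 := (Nat.prime_dvd_prime_iff_eq hqp
      (Nat.prime_of_mem_primeFactors (Finset.mem_of_mem_erase hp))).1 hqp'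
    exact (Finset.mem_erase.1 hp).1 h5.symm
  unfold aS
  rw [Finset.mul_sum]
  constructor
  · intro hqS
    rw [← Finset.add_sum_erase S _ hqS]
    intro h
    apply h2
    refine (Nat.dvd_add_left ?_).1 h
    refine Finset.dvd_sum fun p hp => ?_
    exact h1 p (hS (Finset.mem_of_mem_erase hp)) (Finset.mem_erase.1 hp).1
  · intro h
    by_contra hqS
    apply h
    refine Finset.dvd_sum fun p hp => h1 p (hS hp) ?_
    rintro rfl
    exact hqS hp

theorem aS_inj {m : ℕ} (hm : 0 < m) {S T : Finset ℕ} (hS : S ⊆ m.primeFactors)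
    (hT : T ⊆ m.primeFactors) (h : aS m S ≡ aS m T [MOD m]) : S = T := by
  ext q
  by_cases hq : q ∈ m.primeFactors
  · rw [mem_iff_aS hm hS hq, mem_iff_aS hm hT hq, not_iff_not]
    have h1 := h.mul_left (∏ p ∈ m.primeFactors.erase q, p)
    exact h1.dvd_iff dvd_rfl
  · exact ⟨fun h => absurd (hS h) hq, fun h => absurd (hT h) hq⟩

end poly

variable {G : Type*} [CommGroup G] [Fintype G]

theorem exists_char (B : G → ℂ) (hB : B ≠ 0) : ∃ χ : G →* ℂˣ, ∑ g, B g * (χ g : ℂ) ≠ 0 := by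
  classical
  by_contra hcon
  push Not at hcon
  apply hB
  have h1 : ∀ F : Additive G → ℂ, ∑ g : Additive G, B g.toMul * F g = 0 := by
    intro F
    have h2 : F ∈ Submodule.span ℂ (Set.range (AddChar.complexBasis (Additive G))) := by
      rw [(AddChar.complexBasis (Additive G)).span_eq]
      trivial
    induction h2 using Submodule.span_induction with
    | mem F hF =>
      obtain ⟨ψ, rfl⟩ := hF
      let χ0 : G →* ℂ :=
        { toFun := fun g => ψ (Additive.ofMul g)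
          map_one' := by rw [ofMul_one, AddChar.map_zero_eq_one]
          map_mul' := fun a b => by rw [ofMul_mul, AddChar.map_add_eq_mul] }
      have h3 := hcon χ0.toHomUnits
      refine Eq.trans ?_ h3
      refine Fintype.sum_equiv Additive.toMul _ _ fun g => ?_
      rw [AddChar.complexBasis_apply]
      rfl
    | zero => simp
    | add F F' _ _ hF hF' =>
      simp only [Pi.add_apply, mul_add, Finset.sum_add_distrib, hF, hF', add_zero]
    | smul a F _ hF =>
      have : ∀ g : Additive G, B g.toMul * (a • F) g = a * (B g.toMul * F g) := by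
        intro g
        simp only [Pi.smul_apply, smul_eq_mul]
        ring
      rw [Finset.sum_congr rfl (fun g _ => this g), ← Finset.mul_sum, hF, mul_zero]
  funext g
  have h4 := h1 (Pi.single (Additive.ofMul g) 1)
  rw [Finset.sum_eq_single (Additive.ofMul g)] at h4
  · simpa using h4
  · intro g' _ hg'
    rw [Pi.single_eq_of_ne hg', mul_zero]
  · intro h
    exact absurd (Finset.mem_univ _) h

theorem exists_gen (χ : G →* ℂˣ) : ∃ x : G, ∀ g, ∃ i : ℕ, χ g = χ x ^ i := by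
  have : Finite χ.range := Set.finite_range χ
  obtain ⟨⟨z, x, hx⟩, hz⟩ := IsCyclic.exists_generator (α := χ.range)
  refine ⟨x, fun g => ?_⟩
  have h1 := hz ⟨χ g, g, rfl⟩
  rw [← mem_powers_iff_mem_zpowers, Submonoid.mem_powers_iff] at h1
  obtain ⟨i, hi⟩ := h1
  refine ⟨i, ?_⟩
  have h2 := congrArg Subtype.val hi
  rw [hx]
  exact h2.symm

variable (χ : G →* ℂˣ) (x : G)

/-- The ring homomorphism attached to a character. -/
def phi : MonoidAlgebra ℚ G →ₐ[ℚ] ℂ :=
  MonoidAlgebra.lift ℚ ℂ G ((Units.coeHom ℂ).comp χ)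

theorem phi_of (g : G) : phi χ (MonoidAlgebra.of ℚ G g) = (χ g : ℂ) := by
  unfold phi
  rw [MonoidAlgebra.lift_of]
  rfl

open Classical in
/-- The sum of the elements of the kernel of a character. -/
def eN : MonoidAlgebra ℚ G := ∑ a : χ.ker, MonoidAlgebra.of ℚ G (a : G)

theorem of_mul_eN {a : G} (ha : χ a = 1) : MonoidAlgebra.of ℚ G a * eN χ = eN χ := by
  classical
  unfold eN
  rw [Finset.mul_sum]
  refine Fintype.sum_equiv (Equiv.mulLeft (⟨a, ha⟩ : χ.ker)) _ _ fun b => ?_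
  rw [← map_mul]
  rfl

/-- The polynomial `∏ (1 - X ^ (m / p))`. -/
def dP (m : ℕ) : ℚ[X] := ∏ p ∈ m.primeFactors, (1 - X ^ (m / p))

variable {χ x}

theorem exists_poly (hx : ∀ g, ∃ i : ℕ, χ g = χ x ^ i) (y : MonoidAlgebra ℚ G) :
    ∃ q : ℚ[X], eN χ * y = eN χ * aeval (MonoidAlgebra.of ℚ G x) q ∧
      phi χ y = aeval (χ x : ℂ) q := by
  induction y using MonoidAlgebra.induction_on with
  | of g =>
    obtain ⟨i, hi⟩ := hx g
    refine ⟨X ^ i, ?_, ?_⟩
    · have h1 : χ (g * (x ^ i)⁻¹) = 1 := by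
        rw [map_mul, map_inv, map_pow, hi, mul_inv_cancel]
      have h2 := of_mul_eN χ h1
      rw [map_pow, aeval_X, ← map_pow]
      calc eN χ * MonoidAlgebra.of ℚ G g
          = MonoidAlgebra.of ℚ G (g * (x ^ i)⁻¹) * eN χ * MonoidAlgebra.of ℚ G (x ^ i) := by
            rw [mul_comm (MonoidAlgebra.of ℚ G (g * (x ^ i)⁻¹)) (eN χ), mul_assoc, ← map_mul,
              inv_mul_cancel_right]
        _ = eN χ * MonoidAlgebra.of ℚ G (x ^ i) := by rw [h2]
    · rw [phi_of, map_pow, aeval_X, hi, Units.val_pow_eq_pow_val]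
  | add y z hy hz =>
    obtain ⟨q, hq1, hq2⟩ := hy
    obtain ⟨q', hq1', hq2'⟩ := hz
    exact ⟨q + q', by rw [mul_add, hq1, hq1', map_add, mul_add], by rw [map_add, hq2, hq2', map_add]⟩
  | smul a y hy =>
    obtain ⟨q, hq1, hq2⟩ := hy
    exact ⟨a • q, by rw [mul_smul_comm, hq1, map_smul, mul_smul_comm],
      by rw [map_smul, hq2, map_smul]⟩

theorem kill (hx : ∀ g, ∃ i : ℕ, χ g = χ x ^ i) {y : MonoidAlgebra ℚ G} (hy : phi χ y = 0) :
    eN χ * aeval (MonoidAlgebra.of ℚ G x) (dP (orderOf (χ x))) * y = 0 := by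
  obtain ⟨q, hq1, hq2⟩ := exists_poly hx y
  set m := orderOf (χ x) with hm
  have hfin : IsOfFinOrder (χ x) := by
    have : Finite χ.range := Set.finite_range χ
    have h1 := isOfFinOrder_of_finite (⟨χ x, x, rfl⟩ : χ.range)
    exact (Submonoid.isOfFinOrder_coe (x := (⟨χ x, x, rfl⟩ : χ.range))).2 h1
  have hmpos : 0 < m := hfin.orderOf_pos
  have hprim : IsPrimitiveRoot (χ x : ℂ) m :=
    IsPrimitiveRoot.coe_units_iff.2 (IsPrimitiveRoot.orderOf (χ x))
  have h1 : cyclotomic m ℚ ∣ q := by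
    rw [cyclotomic_eq_minpoly_rat hprim hmpos]
    exact minpoly.dvd ℚ _ (by rw [← hq2, hy])
  obtain ⟨q', hq'⟩ := h1
  obtain ⟨r, hr⟩ := cyclo_dvd hmpos
  have hxm : χ (x ^ m) = 1 := by rw [map_pow, hm, pow_orderOf_eq_one]
  have h2 : eN χ * (aeval (MonoidAlgebra.of ℚ G x) (X ^ m - 1 : ℚ[X])) = 0 := by
    rw [map_sub, map_pow, aeval_X, map_one, mul_sub, mul_one, ← map_pow, mul_comm,
      of_mul_eN χ hxm, sub_self]
  calc eN χ * aeval (MonoidAlgebra.of ℚ G x) (dP m) * y
      = (eN χ * y) * aeval (MonoidAlgebra.of ℚ G x) (dP m) := by ring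
    _ = (eN χ * aeval (MonoidAlgebra.of ℚ G x) (cyclotomic m ℚ * q')) *
        aeval (MonoidAlgebra.of ℚ G x) (dP m) := by rw [hq1, hq']
    _ = eN χ * aeval (MonoidAlgebra.of ℚ G x) (cyclotomic m ℚ * dP m) *
        aeval (MonoidAlgebra.of ℚ G x) q' := by
        rw [map_mul, map_mul]
        ring
    _ = (eN χ * (aeval (MonoidAlgebra.of ℚ G x) (X ^ m - 1 : ℚ[X]))) *
        aeval (MonoidAlgebra.of ℚ G x) r * aeval (MonoidAlgebra.of ℚ G x) q' := by
        unfold dP
        rw [hr, map_mul]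
        ring
    _ = 0 := by rw [h2, zero_mul, zero_mul]

open Classical in
/-- The coefficients of `eN * dP`. -/
def cf (χ : G →* ℂˣ) (x : G) (m : ℕ) (g : G) : ℤ :=
  ∑ z ∈ (Finset.univ : Finset χ.ker) ×ˢ m.primeFactors.powerset,
    if (z.1 : G) * x ^ aS m z.2 = g then (-1) ^ z.2.card else 0

theorem aeval_dP (m : ℕ) : aeval (MonoidAlgebra.of ℚ G x) (dP m) =
    ∑ S ∈ m.primeFactors.powerset, (-1 : ℚ) ^ S.card • MonoidAlgebra.of ℚ G (x ^ aS m S) := by
  unfold dP
  rw [map_prod]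
  have h1 : ∀ p ∈ m.primeFactors, aeval (MonoidAlgebra.of ℚ G x) (1 - X ^ (m / p) : ℚ[X]) =
      1 + (-1 : ℚ) • MonoidAlgebra.of ℚ G (x ^ (m / p)) := by
    intro p _
    rw [map_sub, map_one, map_pow, aeval_X, map_pow, sub_eq_add_neg, neg_smul, one_smul]
  rw [Finset.prod_congr rfl h1, Finset.prod_one_add]
  refine Finset.sum_congr rfl fun S _ => ?_
  rw [Finset.prod_smul, Finset.prod_const, ← map_prod, Finset.prod_pow_eq_pow_sum]
  rfl

theorem coeff_E (m : ℕ) (g : G) :
    (eN χ * aeval (MonoidAlgebra.of ℚ G x) (dP m)).coeff g = cf χ x m g := by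
  classical
  rw [aeval_dP]
  unfold eN cf
  rw [Finset.sum_mul_sum, MonoidAlgebra.coeff_sum, Finset.sum_product, Finsupp.finsetSum_apply]
  push_cast
  refine Finset.sum_congr rfl fun a _ => ?_
  rw [MonoidAlgebra.coeff_sum, Finsupp.finsetSum_apply]
  refine Finset.sum_congr rfl fun S _ => ?_
  rw [mul_smul_comm, ← map_mul, MonoidAlgebra.coeff_smul_apply, MonoidAlgebra.of_apply,
    MonoidAlgebra.coeff_single, Finsupp.single_apply]
  split_ifs with h <;> simp

theorem cf_inj {a b : χ.ker} {S T : Finset ℕ} (hS : S ⊆ (orderOf (χ x)).primeFactors)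
    (hT : T ⊆ (orderOf (χ x)).primeFactors) (hm : 0 < orderOf (χ x))
    (h : (a : G) * x ^ aS (orderOf (χ x)) S = b * x ^ aS (orderOf (χ x)) T) : a = b ∧ S = T := by
  have h1 := congrArg χ h
  have ha : χ (a : G) = 1 := a.2
  have hb : χ (b : G) = 1 := b.2
  rw [map_mul, map_mul, ha, hb, one_mul, one_mul, map_pow, map_pow, pow_eq_pow_iff_modEq] at h1
  have h2 := aS_inj hm hS hT h1
  subst h2
  exact ⟨Subtype.ext (mul_right_cancel h), rfl⟩

theorem cf_eq (hm : 0 < orderOf (χ x)) (a : χ.ker) {S : Finset ℕ}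
    (hS : S ⊆ (orderOf (χ x)).primeFactors) :
    cf χ x (orderOf (χ x)) (a * x ^ aS (orderOf (χ x)) S) = (-1) ^ S.card := by
  classical
  unfold cf
  rw [Finset.sum_eq_single (a, S)]
  · rw [if_pos rfl]
  · rintro ⟨b, T⟩ hb hne
    rw [if_neg]
    intro h
    rw [Finset.mem_product, Finset.mem_powerset] at hb
    obtain ⟨h1, h2⟩ := cf_inj hb.2 hS hm h
    exact hne (Prod.ext h1 h2)
  · intro h
    exact absurd (Finset.mem_product.2 ⟨Finset.mem_univ _, Finset.mem_powerset.2 hS⟩) h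

theorem cf_val (hm : 0 < orderOf (χ x)) (g : G) :
    cf χ x (orderOf (χ x)) g = 0 ∨ cf χ x (orderOf (χ x)) g = 1 ∨
      cf χ x (orderOf (χ x)) g = -1 := by
  classical
  by_cases h : ∃ (a : χ.ker) (S : Finset ℕ), S ⊆ (orderOf (χ x)).primeFactors ∧
      (a : G) * x ^ aS (orderOf (χ x)) S = g
  · obtain ⟨a, S, hS, rfl⟩ := h
    rw [cf_eq hm a hS]
    right
    exact neg_one_pow_eq_or ℤ _
  · left
    unfold cf
    refine Finset.sum_eq_zero fun z hz => ?_
    rw [if_neg]
    intro h2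
    rw [Finset.mem_product, Finset.mem_powerset] at hz
    exact h ⟨z.1, z.2, hz.2, h2⟩

/-- **Small vectors.** -/
theorem exists_small (c : G) (B : G → ℤ) (hodd : ∀ g, B (c * g) = - B g) (hB : B ≠ 0) :
    ∃ (n : G → ℤ) (N : ℕ) (h : G → ℤ), 0 < N ∧ h ≠ 0 ∧ (∀ g, h g = 0 ∨ h g = 1 ∨ h g = -1) ∧
      (∀ g, h (c * g) = - h g) ∧ ∀ g, ∑ u, n u * B (u * g) = N * h g := by
  classical
  obtain ⟨χ, hχ⟩ := exists_char (fun g => ((B g⁻¹ : ℤ) : ℂ)) (by
    intro h0
    apply hB
    funext g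
    have h1 := congrFun h0 g⁻¹
    simp only [inv_inv, Pi.zero_apply] at h1
    exact_mod_cast h1)
  obtain ⟨x, hx⟩ := exists_gen χ
  set m := orderOf (χ x) with hm
  have hfin : IsOfFinOrder (χ x) := by
    have : Finite χ.range := Set.finite_range χ
    have h1 := isOfFinOrder_of_finite (⟨χ x, x, rfl⟩ : χ.range)
    exact (Submonoid.isOfFinOrder_coe (x := (⟨χ x, x, rfl⟩ : χ.range))).2 h1
  have hmpos : 0 < m := hfin.orderOf_pos
  let b : MonoidAlgebra ℚ G := ∑ g, (B g⁻¹ : ℚ) • MonoidAlgebra.of ℚ G g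
  have hbc : ∀ g, b.coeff g = (B g⁻¹ : ℚ) := by
    intro g
    simp only [b]
    rw [MonoidAlgebra.coeff_sum, Finsupp.finsetSum_apply, Finset.sum_eq_single g]
    · rw [MonoidAlgebra.coeff_smul_apply, MonoidAlgebra.of_apply, MonoidAlgebra.coeff_single,
        Finsupp.single_eq_same, smul_eq_mul, mul_one]
    · intro g' _ hg'
      rw [MonoidAlgebra.coeff_smul_apply, MonoidAlgebra.of_apply, MonoidAlgebra.coeff_single,
        Finsupp.single_eq_of_ne hg'.symm, smul_zero]
    · intro h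
      exact absurd (Finset.mem_univ _) h
  have hφb : phi χ b ≠ 0 := by
    simp only [b]
    rw [map_sum]
    refine fun h0 => hχ (Eq.trans (Finset.sum_congr rfl fun g _ => ?_) h0)
    rw [map_smul, phi_of, Algebra.smul_def, eq_ratCast]
    push_cast
    rfl
  -- the inverse
  obtain ⟨u, hu⟩ : ∃ u : MonoidAlgebra ℚ G, phi χ u * phi χ b = 1 := by
    have halg : IsAlgebraic ℚ (phi χ b) := by
      have h1 : IsIntegral ℚ b := IsIntegral.of_finite ℚ b
      exact (h1.map (phi χ)).isAlgebraic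
    have h2 := Subalgebra.inv_mem_of_algebraic (A := (phi χ).range)
      (x := ⟨phi χ b, b, rfl⟩) halg
    obtain ⟨u, hu⟩ := h2
    refine ⟨u, ?_⟩
    have h3 : phi χ u = (phi χ b)⁻¹ := hu
    rw [h3, inv_mul_cancel₀ hφb]
  set E := eN χ * aeval (MonoidAlgebra.of ℚ G x) (dP m) with hE
  have h1 : E * (u * b - 1) = 0 := kill hx (by rw [map_sub, map_mul, hu, map_one, sub_self])
  have h2 : (E * u) * b = E := by
    rw [mul_sub, mul_one, sub_eq_zero, ← mul_assoc] at h1
    exact h1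
  -- the value at `c`
  have hχc : (χ c : ℂ) = -1 := by
    have h3 : ∑ g, ((B g⁻¹ : ℤ) : ℂ) * (χ g : ℂ) =
        -(χ c : ℂ)⁻¹ * ∑ g, ((B g⁻¹ : ℤ) : ℂ) * (χ g : ℂ) := by
      rw [Finset.mul_sum]
      refine (Fintype.sum_equiv (Equiv.mulLeft c⁻¹) _ _ fun g => ?_).symm
      rw [Equiv.coe_mulLeft, mul_inv, inv_inv, hodd, map_mul, map_inv]
      push_cast
      ring
    have h4 : (1 : ℂ) = -(χ c : ℂ)⁻¹ := by
      refine mul_right_cancel₀ hχ ?_
      rw [one_mul]
      exact h3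
    have h5 : (χ c : ℂ) ≠ 0 := Units.ne_zero _
    have h6 : (χ c : ℂ) * 1 = (χ c : ℂ) * -(χ c : ℂ)⁻¹ := by rw [← h4]
    rw [mul_one, mul_neg, mul_inv_cancel₀ h5] at h6
    exact h6
  have hEc : E * (MonoidAlgebra.of ℚ G c + 1) = 0 :=
    kill hx (by rw [map_add, phi_of, map_one, hχc, neg_add_cancel])
  -- denominators
  set y := E * u with hy
  let N : ℕ := ∏ v, (y.coeff v).den
  have hN : 0 < N := Finset.prod_pos fun v _ => (y.coeff v).den_pos
  have hn : ∀ v, ∃ k : ℤ, (k : ℚ) = N * y.coeff v := by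
    intro v
    obtain ⟨k, hk⟩ := Finset.dvd_prod_of_mem (fun v => (y.coeff v).den) (Finset.mem_univ v)
    refine ⟨k * (y.coeff v).num, ?_⟩
    have h3 : (N : ℚ) = (y.coeff v).den * k := by
      simp only [N]
      rw [hk]
      push_cast
      rfl
    have h4 := Rat.mul_den_eq_num (y.coeff v)
    rw [h3]
    push_cast
    linear_combination -(k : ℚ) * h4
  choose n hn using hn
  refine ⟨n, N, fun g => cf χ x m g⁻¹, hN, ?_, fun g => cf_val hmpos _, ?_, ?_⟩
  · intro h0
    have h3 := congrFun h0 1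
    have h4 := cf_eq (χ := χ) (x := x) hmpos 1 (S := ∅) (Finset.empty_subset _)
    simp only [inv_one, Pi.zero_apply] at h3
    simp only [aS, Finset.sum_empty, pow_zero, OneMemClass.coe_one, mul_one, Finset.card_empty]
      at h4
    rw [hm, h4] at h3
    exact one_ne_zero h3
  · intro g
    have h3 : (E * (MonoidAlgebra.of ℚ G c + 1)).coeff g⁻¹ = 0 := by
      rw [hEc]
      rfl
    rw [mul_add, mul_one, MonoidAlgebra.coeff_add, Finsupp.add_apply, MonoidAlgebra.of_apply,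
      MonoidAlgebra.coeff_mul_single_apply, mul_one, coeff_E, coeff_E] at h3
    have h4 : (c * g)⁻¹ = g⁻¹ * c⁻¹ := by rw [mul_inv_rev]
    change cf χ x m (c * g)⁻¹ = - cf χ x m g⁻¹
    rw [h4]
    have h5 : ((cf χ x m (g⁻¹ * c⁻¹) + cf χ x m g⁻¹ : ℤ) : ℚ) = 0 := by
      push_cast
      exact h3
    have h6 : cf χ x m (g⁻¹ * c⁻¹) + cf χ x m g⁻¹ = 0 := by exact_mod_cast h5
    linarith
  · intro g
    have h3 : (y * b).coeff g⁻¹ = (cf χ x m g⁻¹ : ℚ) := by
      rw [h2, coeff_E]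
    rw [MonoidAlgebra.coeff_mul_apply_left, Finsupp.sum_fintype _ _ (fun _ => by rw [zero_mul])]
      at h3
    have h4 : ((∑ v, n v * B (v * g) : ℤ) : ℚ) = ((N * cf χ x m g⁻¹ : ℤ) : ℚ) := by
      push_cast
      rw [← h3, Finset.mul_sum]
      refine Finset.sum_congr rfl fun v _ => ?_
      rw [hn, hbc, mul_inv_rev, inv_inv, inv_inv, mul_comm g v]
      ring
    exact_mod_cast h4

end

end Pool.Agent.W537.PC
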