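import Mathlib
import Pool.Agent.W547.KB.Defs

/-!
# Periods of abelian varieties of CM type, and their de Rham-Betti classes
-/

namespace Pool.Agent.W537.PC

open NumberField Pool.Agent.H204R3.CM Pool.Agent.W547.KB

/-- A system of periods for the abelian varieties of CM type over `ℚ̄`. For `A` of CM type
`B = (E, Φ)`, with rational homology `H_1(A, ℚ) = E`, the space `H^1_dR(A / ℚ̄)` is spanned by
eigenforms, one for every embedding `φ : E → ℂ`; the eigenform has on the element `w` of the
homology the period `θ φ * φ w`. -/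
structure PeriodSystem where
  /-- the periods -/
  θ : (B : CMPair) → (B.E →+* ℂ) → ℂ
  ne_zero : ∀ (B : CMPair) (φ : B.E →+* ℂ), θ B φ ≠ 0

namespace PeriodSystem

variable (P : PeriodSystem) (X : CMAV)

/-- The eigenforms on the product `X`, as functions on `H_1(X, ℚ)`. -/
noncomputable def form (i : X.I) (φ : (X.factor i).E →+* ℂ) (w : X.H1) : ℂ := P.θ (X.factor i) φ * φ (w i)

/-- `H^m_dR(X / ℚ̄)`, inside the complex valued functions on `H_1(X, ℚ) ^ m`: the span over the
field `ℚ̄` of algebraic numbers of the wedge products of `m` eigenforms. -/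
noncomputable def deRham (m : ℕ) : Submodule (algebraicClosure ℚ ℂ) ((Fin m → X.H1) → ℂ) :=
  Submodule.span (algebraicClosure ℚ ℂ)
    {F | ∃ I : Fin m → Σ i : X.I, ((X.factor i).E →+* ℂ),
      F = fun v => Matrix.det (Matrix.of fun k l => P.form X (I l).1 (I l).2 (v k))}

/-- The class `f ∈ H^{2k}(X, ℚ)` is a de Rham-Betti class: `(2 π i) ^ k f` lies in
`H^{2k}_dR(X / ℚ̄)`. -/
def IsDRB (k : ℕ) (f : X.H1 [⋀^Fin (2 * k)]→ₗ[ℚ] ℚ) : Prop :=
  (fun v => (2 * Real.pi * Complex.I) ^ k * ((f v : ℚ) : ℂ)) ∈ P.deRham X (2 * k)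

/-- The theorem of Bost for abelian varieties of CM type: de Rham-Betti classes of degree two are
classes of divisors, in particular Hodge classes. -/
def Bost : Prop :=
  ∀ (X : CMAV) (f : X.H1 [⋀^Fin (2 * 1)]→ₗ[ℚ] ℚ), P.IsDRB X 1 f → IsHodge X.per f

/-- The theorem of Deligne for abelian varieties of CM type: Hodge classes are absolute Hodge
classes, in particular de Rham-Betti classes. -/
def Deligne : Prop :=
  ∀ (X : CMAV) (k : ℕ) (f : X.H1 [⋀^Fin (2 * k)]→ₗ[ℚ] ℚ), IsHodge X.per f → P.IsDRB X k f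

end PeriodSystem

/-- The number field `E` is an abelian extension of the field of rational numbers. -/
def IsAbelian (E : Type) [Field E] [NumberField E] : Prop :=
  IsGalois ℚ E ∧ ∀ a b : E ≃ₐ[ℚ] E, a * b = b * a

end Pool.Agent.W537.PC
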