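import Pool.Agent.W537.PC.Word
import Pool.Agent.W537.PC.Small

/-!
# De Rham-Betti classes and Hodge classes over a commutative Galois group
-/

set_option linter.unusedSectionVars false
set_option linter.unusedVariables false

namespace Pool.Agent.W537.PC

open NumberField Pool.Agent.H204R3.CM Pool.Agent.W547.KB Module

noncomputable section

theorem exists_small' {G : Type*} [Group G] [Fintype G] (hcomm : ∀ a b : G, a * b = b * a) (c : G)
    (B : G → ℤ) (hodd : ∀ g, B (c * g) = - B g) (hB : B ≠ 0) :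
    ∃ (n : G → ℤ) (N : ℕ) (h : G → ℤ), 0 < N ∧ h ≠ 0 ∧ (∀ g, h g = 0 ∨ h g = 1 ∨ h g = -1) ∧
      (∀ g, h (c * g) = - h g) ∧ ∀ g, ∑ u, n u * B (u * g) = N * h g := by
  let _ : CommGroup G := { (inferInstance : Group G) with mul_comm := hcomm }
  exact exists_small c B hodd hB

variable {L : Type} [Field L] [NumberField L] [IsCMField L] [IsGalois ℚ L] (j : L →+* ℂ)
  (P : PeriodSystem)

/-- The action of the Galois group on the letters. -/
def Letter.act (τ : L ≃ₐ[ℚ] L) (x : Letter L) : Letter L := ⟨x.B, τ • x.φ⟩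

theorem Letter.act_act (σ τ : L ≃ₐ[ℚ] L) (x : Letter L) :
    (x.act τ).act σ = x.act (σ * τ) := by
  unfold Letter.act
  congr 1

theorem Letter.s_act (τ σ : L ≃ₐ[ℚ] L) (x : Letter L) : (x.act τ).s j σ = x.s j (σ * τ) := by
  by_cases h : j.comp (σ • (τ • x.φ)) ∈ x.B.Φ
  · rw [Letter.s_pos j (x.act τ) σ h]
    exact (x.s_pos j (σ * τ) h).symm
  · rw [Letter.s_neg j (x.act τ) σ h]
    exact (x.s_neg j (σ * τ) h).symm

theorem Letter.s_cc (σ : L ≃ₐ[ℚ] L) (x : Letter L) : x.s j (cc L * σ) = - x.s j σ := by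
  have h1 : j.comp ((cc L * σ) • x.φ) = ComplexEmbedding.conjugate (j.comp (σ • x.φ)) := by
    ext y
    change j (cc L (σ (x.φ y))) = _
    rw [emb_cc, ComplexEmbedding.conjugate_coe_eq]
    rfl
  by_cases h : j.comp (σ • x.φ) ∈ x.B.Φ
  · rw [x.s_pos j σ h, x.s_neg j (cc L * σ) (by rw [h1]; exact (x.B.isCMType _).1 h)]
  · rw [x.s_neg j σ h, x.s_pos j (cc L * σ) (by
      rw [h1]
      by_contra h2
      exact h ((x.B.isCMType _).2 h2)), neg_neg]

/-- Traces of monomials with the right periods are de Rham-Betti classes. -/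
theorem drb_trForm {m : ℕ} (w : Fin (2 * m) → Letter L)
    (hw : ∀ τ, (∏ k, P.tl j ((w k).act τ)) / (2 * Real.pi * Complex.I) ^ m ∈
      algebraicClosure ℚ ℂ) : P.IsDRB (wordX w) m (trForm 1 (wordI w)) := by
  unfold PeriodSystem.IsDRB
  have h1 : (fun v : Fin (2 * m) → (wordX w).H1 =>
      (2 * Real.pi * Complex.I) ^ m * ((trForm 1 (wordI w) v : ℚ) : ℂ)) =
      ∑ τ : L ≃ₐ[ℚ] L, (⟨((∏ k, P.tl j ((w k).act τ)) / (2 * Real.pi * Complex.I) ^ m)⁻¹,
        inv_mem (hw τ)⟩ : algebraicClosure ℚ ℂ) •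
        (fun v : Fin (2 * m) → (wordX w).H1 => Matrix.det (Matrix.of fun k l =>
          P.form (wordX w) l (j.comp (τ • (w l).φ)) (v k))) := by
    funext v
    rw [Finset.sum_apply, ← wordM_chi j w v]
    unfold wordM
    rw [_root_.sum_apply, Finset.mul_sum]
    refine Finset.sum_congr rfl fun τ _ => ?_
    rw [Pi.smul_apply, detM_apply]
    change _ = ((∏ k, P.tl j ((w k).act τ)) / (2 * Real.pi * Complex.I) ^ m)⁻¹ *
      Matrix.det (Matrix.of fun k l => P.tl j ((w l).act τ) * (j.comp (τ • (w l).φ)) (v k l))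
    rw [Matrix.det_mul_row (fun l => P.tl j ((w l).act τ))
      (fun k l => (j.comp (τ • (w l).φ)) (v k l))]
    have h2 : (∏ k, P.tl j ((w k).act τ)) ≠ 0 :=
      Finset.prod_ne_zero_iff.2 fun k _ => P.ne_zero _ _
    have h3 : (Matrix.of fun k l => (1 : ℂ) * chiX (v k)
        (⟨l, j.comp (τ • (w l).φ)⟩ : Wt (wordX w) ℂ)) =
        (fun k l => (j.comp (τ • (w l).φ)) (v k l) : Matrix (Fin (2 * m)) (Fin (2 * m)) ℂ) := by
      ext k l
      rw [Matrix.of_apply, one_mul]
      rfl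
    rw [h3, inv_div, ← mul_assoc, div_mul_cancel₀ _ h2]
  rw [h1]
  refine Submodule.sum_mem _ fun τ _ => Submodule.smul_mem _ _ (Submodule.subset_span ?_)
  exact ⟨fun l => ⟨l, j.comp (τ • (w l).φ)⟩, rfl⟩

/-- Balance of a word whose trace is a Hodge class. -/
theorem balanced_of_hodge_word {m : ℕ} (w : Fin m → Letter L)
    (hf : IsHodge (wordX w).per (trForm 1 (wordI w))) (σ : L ≃ₐ[ℚ] L) :
    ∑ k, (w k).s j σ = 0 := by
  classical
  obtain ⟨n, hn, hn'⟩ := wordM_e (j.comp (σ : L →+* L)) w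
  refine balanced_cx (wordM_chi (j.comp (σ : L →+* L)) w) hf _ (by
    rw [hn']
    exact_mod_cast hn.ne') (fun k => (w k).s j σ) ?_ ?_
  · intro l hl
    exact (w l).s_pos j σ hl
  · intro l hl
    exact (w l).s_neg j σ hl

/-- The period of the word is algebraic, up to the power of `2 π i`. -/
def AlgW (w : Multiset (Letter L)) : Prop := (w.map (P.rl j)).prod ∈ algebraicClosure ℚ ℂ

variable {P j}

theorem prod_rl_ne (w : Multiset (Letter L)) : (w.map (P.rl j)).prod ≠ 0 := by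
  apply Multiset.prod_ne_zero
  intro h
  rw [Multiset.mem_map] at h
  obtain ⟨x, -, hx⟩ := h
  exact P.rl_ne j x hx

theorem AlgW.add {w w' : Multiset (Letter L)} (h : AlgW j P w) (h' : AlgW j P w') :
    AlgW j P (w + w') := by
  unfold AlgW at *
  rw [Multiset.map_add, Multiset.prod_add]
  exact mul_mem h h'

theorem AlgW.cancel {w w' : Multiset (Letter L)} (h : AlgW j P (w + w')) (h' : AlgW j P w') :
    AlgW j P w := by
  unfold AlgW at *
  rw [Multiset.map_add, Multiset.prod_add] at h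
  have h1 := div_mem h h'
  rwa [mul_div_assoc, div_self (prod_rl_ne w'), mul_one] at h1

theorem AlgW.nsmul {w : Multiset (Letter L)} (h : AlgW j P w) (k : ℕ) : AlgW j P (k • w) := by
  unfold AlgW at *
  rw [Multiset.map_nsmul, Multiset.prod_nsmul]
  exact pow_mem h k

theorem AlgW.sum {ι : Type*} (s : Finset ι) (F : ι → Multiset (Letter L))
    (h : ∀ u ∈ s, AlgW j P (F u)) : AlgW j P (∑ u ∈ s, F u) := by
  classical
  induction s using Finset.induction_on with
  | empty =>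
    rw [Finset.sum_empty]
    unfold AlgW
    rw [Multiset.map_zero, Multiset.prod_zero]
    exact one_mem _
  | insert a s ha ih =>
    rw [Finset.sum_insert ha]
    exact (h a (Finset.mem_insert_self _ _)).add (ih fun u hu => h u (Finset.mem_insert_of_mem hu))

theorem AlgW.bar (hD : P.Deligne) {w : Multiset (Letter L)} (h : AlgW j P w) :
    AlgW j P (w.map (Letter.act (cc L))) := by
  refine AlgW.cancel (w' := w) ?_ h
  refine word_rl j P hD _ fun σ => ?_
  rw [Multiset.map_add, Multiset.sum_add, Multiset.map_map]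
  have h1 : ((fun x : Letter L => x.s j σ) ∘ Letter.act (cc L)) = fun x => -(x.s j σ) := by
    funext x
    change (x.act (cc L)).s j σ = _
    rw [Letter.s_act, ← cc_comm j, Letter.s_cc]
  rw [h1, Multiset.sum_map_neg, neg_add_cancel]

variable (P j)

/-- The word is balanced if the periods of all its conjugates are algebraic. -/
theorem balanced_of_rl (hB : P.Bost) (hD : P.Deligne) (hcomm : ∀ a b : L ≃ₐ[ℚ] L, a * b = b * a)
    (w : Multiset (Letter L)) (hw : ∀ τ, AlgW j P (w.map (Letter.act τ))) (σ0 : L ≃ₐ[ℚ] L) :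
    (w.map (fun x => x.s j σ0)).sum = 0 := by
  classical
  set B : (L ≃ₐ[ℚ] L) → ℤ := fun σ => (w.map (fun x => x.s j σ)).sum with hBdef
  have hodd : ∀ σ, B (cc L * σ) = - B σ := by
    intro σ
    simp only [hBdef, Letter.s_cc]
    exact Multiset.sum_map_neg
  by_contra hne
  have hB0 : B ≠ 0 := fun h => hne (congrFun h σ0)
  obtain ⟨n, N, h, hN, hh0, hval, hodd', hrel⟩ := exists_small' hcomm (cc L) B hodd hB0
  have hw0 : w ≠ 0 := by
    rintro rfl
    exact hne rfl
  obtain ⟨x0, -⟩ := Multiset.exists_mem_of_ne_zero hw0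
  let S : Set (L ≃ₐ[ℚ] L) := {σ | h σ = 1 ∨ (h σ = 0 ∧ x0.s j σ = 1)}
  let S' : Set (L ≃ₐ[ℚ] L) := {σ | h σ = -1 ∨ (h σ = 0 ∧ x0.s j σ = 1)}
  have hS : IsHalf S := by
    intro σ
    change (h σ = 1 ∨ (h σ = 0 ∧ x0.s j σ = 1)) ↔
      ¬ (h (cc L * σ) = 1 ∨ (h (cc L * σ) = 0 ∧ x0.s j (cc L * σ) = 1))
    rw [hodd', Letter.s_cc]
    have h1 := hval σ
    have h2 := x0.s_cases j σ
    omega
  have hS' : IsHalf S' := by
    intro σ
    change (h σ = -1 ∨ (h σ = 0 ∧ x0.s j σ = 1)) ↔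
      ¬ (h (cc L * σ) = -1 ∨ (h (cc L * σ) = 0 ∧ x0.s j (cc L * σ) = 1))
    rw [hodd', Letter.s_cc]
    have h1 := hval σ
    have h2 := x0.s_cases j σ
    omega
  let x1 : Letter L := ⟨⟨L, typeOf j S, isCMType_typeOf j hS⟩, RingHom.id L⟩
  let x2 : Letter L := ⟨⟨L, typeOf j S', isCMType_typeOf j hS'⟩, RingHom.id L⟩
  have hx1 : ∀ σ, (σ ∈ S → x1.s j σ = 1) ∧ (σ ∉ S → x1.s j σ = -1) := fun σ =>
    ⟨fun hσ => x1.s_pos j σ ((mem_typeOf j S σ).2 hσ),
      fun hσ => x1.s_neg j σ fun h2 => hσ ((mem_typeOf j S σ).1 h2)⟩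
  have hx2 : ∀ σ, (σ ∈ S' → x2.s j σ = 1) ∧ (σ ∉ S' → x2.s j σ = -1) := fun σ =>
    ⟨fun hσ => x2.s_pos j σ ((mem_typeOf j S' σ).2 hσ),
      fun hσ => x2.s_neg j σ fun h2 => hσ ((mem_typeOf j S' σ).1 h2)⟩
  have hdiff : ∀ σ, x1.s j σ - x2.s j σ = 2 * h σ := by
    intro σ
    have e1 : σ ∈ S ↔ (h σ = 1 ∨ (h σ = 0 ∧ x0.s j σ = 1)) := Iff.rfl
    have e2 : σ ∈ S' ↔ (h σ = -1 ∨ (h σ = 0 ∧ x0.s j σ = 1)) := Iff.rfl
    have h1 := hval σ
    have h2 := x0.s_cases j σ
    have h3 := hx1 σ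
    have h4 := hx2 σ
    rw [e1] at h3
    rw [e2] at h4
    omega
  -- the words
  let V : (L ≃ₐ[ℚ] L) → Multiset (Letter L) := fun τ =>
    ∑ u, (if 0 ≤ n u then (2 * n u).toNat • (w.map (Letter.act (u * τ)))
      else (-(2 * n u)).toNat • (w.map (Letter.act (cc L * (u * τ)))))
  have hV : ∀ τ, AlgW j P (V τ) := by
    intro τ
    refine AlgW.sum _ _ fun u _ => ?_
    split_ifs with hu
    · exact (hw _).nsmul _
    · refine AlgW.nsmul ?_ _
      have h1 := (hw (u * τ)).bar hD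
      rw [Multiset.map_map] at h1
      have h2 : (Letter.act (cc L) ∘ Letter.act (u * τ)) =
          (Letter.act (cc L * (u * τ)) : Letter L → Letter L) := by
        funext x
        exact Letter.act_act _ _ _
      rwa [h2] at h1
  have hVs : ∀ τ σ, ((V τ).map (fun x => x.s j σ)).sum = 2 * (N * h (σ * τ)) := by
    intro τ σ
    let Λ : Multiset (Letter L) →+ ℤ :=
      Multiset.sumAddMonoidHom.comp (Multiset.mapAddMonoidHom (fun x => x.s j σ))
    change Λ (V τ) = _
    simp only [V]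
    rw [map_sum, ← hrel, Finset.mul_sum]
    refine Finset.sum_congr rfl fun u _ => ?_
    have hΛ : ∀ τ' : L ≃ₐ[ℚ] L, Λ (w.map (Letter.act τ')) = B (σ * τ') := by
      intro τ'
      change ((w.map (Letter.act τ')).map (fun x => x.s j σ)).sum = _
      rw [Multiset.map_map]
      simp only [hBdef]
      congr 2
    have e1 : σ * (u * τ) = u * (σ * τ) := by
      rw [← mul_assoc, hcomm σ u, mul_assoc]
    split_ifs with hu
    · rw [map_nsmul, hΛ, e1, nsmul_eq_mul]
      have : (((2 * n u).toNat : ℕ) : ℤ) = 2 * n u := Int.toNat_of_nonneg (by omega)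
      rw [this]
      ring
    · rw [map_nsmul, hΛ, ← mul_assoc, ← cc_comm j, mul_assoc, hodd, e1, nsmul_eq_mul]
      have : (((-(2 * n u)).toNat : ℕ) : ℤ) = -(2 * n u) := Int.toNat_of_nonneg (by omega)
      rw [this]
      ring
  have hpair : ∀ τ, P.rl j (x1.act (τ * cc L)) * P.rl j (x2.act τ) ∈ algebraicClosure ℚ ℂ := by
    intro τ
    have h1 : AlgW j P ((Multiset.replicate N (x1.act (τ * cc L)) +
        Multiset.replicate N (x2.act τ)) + V τ) := by
      refine word_rl j P hD _ fun σ => ?_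
      rw [Multiset.map_add, Multiset.sum_add, hVs, Multiset.map_add, Multiset.sum_add,
        Multiset.map_replicate, Multiset.map_replicate, Multiset.sum_replicate,
        Multiset.sum_replicate, Letter.s_act, Letter.s_act, ← mul_assoc, ← cc_comm j,
        Letter.s_cc, nsmul_eq_mul, nsmul_eq_mul]
      linear_combination (-(N : ℤ)) * hdiff (σ * τ)
    have h2 := h1.cancel (hV τ)
    unfold AlgW at h2
    rw [Multiset.map_add, Multiset.prod_add, Multiset.map_replicate, Multiset.map_replicate,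
      Multiset.prod_replicate, Multiset.prod_replicate, ← mul_pow] at h2
    exact mem_algebraicClosure_iff.2 (IsAlgebraic.of_pow hN (mem_algebraicClosure_iff.1 h2))
  have hpair' : ∀ τ, P.tl j (x1.act (τ * cc L)) * P.tl j (x2.act τ) /
      (2 * Real.pi * Complex.I) ∈ algebraicClosure ℚ ℂ := by
    intro τ
    have h1 := hpair τ
    have h2 : P.rl j (x1.act (τ * cc L)) * P.rl j (x2.act τ) =
        (P.tl j (x1.act (τ * cc L)) * P.tl j (x2.act τ) / (2 * Real.pi * Complex.I)) ^ 2 := by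
      unfold PeriodSystem.rl
      rw [div_mul_div_comm, div_pow, mul_pow, sq (2 * Real.pi * Complex.I : ℂ)]
    rw [h2] at h1
    exact mem_algebraicClosure_iff.2 (IsAlgebraic.of_pow two_pos (mem_algebraicClosure_iff.1 h1))
  -- the class of degree two
  let w2 : Fin (2 * 1) → Letter L := ![x1.act (cc L), x2]
  have h1 : P.IsDRB (wordX w2) 1 (trForm 1 (wordI w2)) := by
    refine drb_trForm j P w2 fun τ => ?_
    have h2 := hpair' τ
    rw [← Letter.act_act] at h2
    rw [pow_one]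
    have h3 : (∏ k, P.tl j ((w2 k).act τ)) =
        P.tl j ((x1.act (cc L)).act τ) * P.tl j (x2.act τ) :=
      Fin.prod_univ_two (fun k : Fin 2 => P.tl j ((w2 k).act τ))
    rw [h3]
    exact h2
  have h2 := hB _ _ h1
  apply hh0
  funext σ
  have h3 := balanced_of_hodge_word j w2 h2 σ
  have h4 : (∑ k, (w2 k).s j σ) = (x1.act (cc L)).s j σ + x2.s j σ :=
    Fin.sum_univ_two (fun k : Fin 2 => (w2 k).s j σ)
  rw [h4, Letter.s_act, ← cc_comm j, Letter.s_cc] at h3
  have h5 := hdiff σ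
  change h σ = 0
  omega

end

end Pool.Agent.W537.PC
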