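import Pool.Agent.W537.PC.Final

/-!
# De Rham-Betti classes and Hodge classes: the criterion of small functions
-/

set_option linter.unusedSectionVars false
set_option linter.unusedVariables false

namespace Pool.Agent.W537.PC

open NumberField Pool.Agent.H204R3.CM Pool.Agent.W547.KB Equiv Module

noncomputable section

/-- Up to a positive factor, some integral combination of the right translates of `B` is nonzero and
has the values `0`, `1`, `-1` only. -/
def Small {G : Type} [Group G] [Fintype G] (c : G) (B : G → ℤ) : Prop :=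
  ∃ (n : G → ℤ) (N : ℕ) (h : G → ℤ), 0 < N ∧ h ≠ 0 ∧ (∀ g, h g = 0 ∨ h g = 1 ∨ h g = -1) ∧
      (∀ g, h (c * g) = - h g) ∧ ∀ g, ∑ u, n u * B (g * u) = N * h g

variable {L : Type} [Field L] [NumberField L] [IsCMField L] [IsGalois ℚ L] (j : L →+* ℂ)
  (P : PeriodSystem)

/-- The word is balanced if the periods of all its conjugates are algebraic, and if some
combination of translates of its type is small. -/
theorem balanced_of_rl_small (hB : P.Bost) (hD : P.Deligne)
    (w : Multiset (Letter L)) (hw : ∀ τ, AlgW j P (w.map (Letter.act τ)))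
    (hsm : (fun σ : L ≃ₐ[ℚ] L => (w.map (fun x => x.s j σ)).sum) ≠ 0 →
      Small (cc L) (fun σ : L ≃ₐ[ℚ] L => (w.map (fun x => x.s j σ)).sum)) (σ0 : L ≃ₐ[ℚ] L) :
    (w.map (fun x => x.s j σ0)).sum = 0 := by
  classical
  set B : (L ≃ₐ[ℚ] L) → ℤ := fun σ => (w.map (fun x => x.s j σ)).sum with hBdef
  have hodd : ∀ σ, B (cc L * σ) = - B σ := by
    intro σ
    simp only [hBdef, Letter.s_cc]
    exact Multiset.sum_map_neg
  by_contra hne
  have hB0 : B ≠ 0 := fun h => hne (congrFun h σ0)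
  obtain ⟨n, N, h, hN, hh0, hval, hodd', hrel⟩ := hsm hB0
  have hw0 : w ≠ 0 := by
    rintro rfl
    exact hne rfl
  obtain ⟨x0, -⟩ := Multiset.exists_mem_of_ne_zero hw0
  let S : Set (L ≃ₐ[ℚ] L) := {σ | h σ = 1 ∨ (h σ = 0 ∧ x0.s j σ = 1)}
  let S' : Set (L ≃ₐ[ℚ] L) := {σ | h σ = -1 ∨ (h σ = 0 ∧ x0.s j σ = 1)}
  have hS : IsHalf S := by
    intro σ
    change (h σ = 1 ∨ (h σ = 0 ∧ x0.s j σ = 1)) ↔
      ¬ (h (cc L * σ) = 1 ∨ (h (cc L * σ) = 0 ∧ x0.s j (cc L * σ) = 1))
    rw [hodd', Letter.s_cc]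
    have h1 := hval σ
    have h2 := x0.s_cases j σ
    omega
  have hS' : IsHalf S' := by
    intro σ
    change (h σ = -1 ∨ (h σ = 0 ∧ x0.s j σ = 1)) ↔
      ¬ (h (cc L * σ) = -1 ∨ (h (cc L * σ) = 0 ∧ x0.s j (cc L * σ) = 1))
    rw [hodd', Letter.s_cc]
    have h1 := hval σ
    have h2 := x0.s_cases j σ
    omega
  let x1 : Letter L := ⟨⟨L, typeOf j S, isCMType_typeOf j hS⟩, RingHom.id L⟩
  let x2 : Letter L := ⟨⟨L, typeOf j S', isCMType_typeOf j hS'⟩, RingHom.id L⟩
  have hx1 : ∀ σ, (σ ∈ S → x1.s j σ = 1) ∧ (σ ∉ S → x1.s j σ = -1) := fun σ =>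
    ⟨fun hσ => x1.s_pos j σ ((mem_typeOf j S σ).2 hσ),
      fun hσ => x1.s_neg j σ fun h2 => hσ ((mem_typeOf j S σ).1 h2)⟩
  have hx2 : ∀ σ, (σ ∈ S' → x2.s j σ = 1) ∧ (σ ∉ S' → x2.s j σ = -1) := fun σ =>
    ⟨fun hσ => x2.s_pos j σ ((mem_typeOf j S' σ).2 hσ),
      fun hσ => x2.s_neg j σ fun h2 => hσ ((mem_typeOf j S' σ).1 h2)⟩
  have hdiff : ∀ σ, x1.s j σ - x2.s j σ = 2 * h σ := by
    intro σ
    have e1 : σ ∈ S ↔ (h σ = 1 ∨ (h σ = 0 ∧ x0.s j σ = 1)) := Iff.rfl
    have e2 : σ ∈ S' ↔ (h σ = -1 ∨ (h σ = 0 ∧ x0.s j σ = 1)) := Iff.rfl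
    have h1 := hval σ
    have h2 := x0.s_cases j σ
    have h3 := hx1 σ
    have h4 := hx2 σ
    rw [e1] at h3
    rw [e2] at h4
    omega
  -- the words
  let V : (L ≃ₐ[ℚ] L) → Multiset (Letter L) := fun τ =>
    ∑ u, (if 0 ≤ n u then (2 * n u).toNat • (w.map (Letter.act (τ * u)))
      else (-(2 * n u)).toNat • (w.map (Letter.act (cc L * (τ * u)))))
  have hV : ∀ τ, AlgW j P (V τ) := by
    intro τ
    refine AlgW.sum _ _ fun u _ => ?_
    split_ifs with hu
    · exact (hw _).nsmul _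
    · refine AlgW.nsmul ?_ _
      have h1 := (hw (τ * u)).bar hD
      rw [Multiset.map_map] at h1
      have h2 : (Letter.act (cc L) ∘ Letter.act (τ * u)) =
          (Letter.act (cc L * (τ * u)) : Letter L → Letter L) := by
        funext x
        exact Letter.act_act _ _ _
      rwa [h2] at h1
  have hVs : ∀ τ σ, ((V τ).map (fun x => x.s j σ)).sum = 2 * (N * h (σ * τ)) := by
    intro τ σ
    let Λ : Multiset (Letter L) →+ ℤ :=
      Multiset.sumAddMonoidHom.comp (Multiset.mapAddMonoidHom (fun x => x.s j σ))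
    change Λ (V τ) = _
    simp only [V]
    rw [map_sum, ← hrel, Finset.mul_sum]
    refine Finset.sum_congr rfl fun u _ => ?_
    have hΛ : ∀ τ' : L ≃ₐ[ℚ] L, Λ (w.map (Letter.act τ')) = B (σ * τ') := by
      intro τ'
      change ((w.map (Letter.act τ')).map (fun x => x.s j σ)).sum = _
      rw [Multiset.map_map]
      simp only [hBdef]
      congr 2
    have e1 : σ * (τ * u) = (σ * τ) * u := by
      rw [← mul_assoc]
    split_ifs with hu
    · rw [map_nsmul, hΛ, e1, nsmul_eq_mul]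
      have : (((2 * n u).toNat : ℕ) : ℤ) = 2 * n u := Int.toNat_of_nonneg (by omega)
      rw [this]
      ring
    · rw [map_nsmul, hΛ, ← mul_assoc, ← cc_comm j, mul_assoc, hodd, e1, nsmul_eq_mul]
      have : (((-(2 * n u)).toNat : ℕ) : ℤ) = -(2 * n u) := Int.toNat_of_nonneg (by omega)
      rw [this]
      ring
  have hpair : ∀ τ, P.rl j (x1.act (τ * cc L)) * P.rl j (x2.act τ) ∈ algebraicClosure ℚ ℂ := by
    intro τ
    have h1 : AlgW j P ((Multiset.replicate N (x1.act (τ * cc L)) +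
        Multiset.replicate N (x2.act τ)) + V τ) := by
      refine word_rl j P hD _ fun σ => ?_
      rw [Multiset.map_add, Multiset.sum_add, hVs, Multiset.map_add, Multiset.sum_add,
        Multiset.map_replicate, Multiset.map_replicate, Multiset.sum_replicate,
        Multiset.sum_replicate, Letter.s_act, Letter.s_act, ← mul_assoc, ← cc_comm j,
        Letter.s_cc, nsmul_eq_mul, nsmul_eq_mul]
      linear_combination (-(N : ℤ)) * hdiff (σ * τ)
    have h2 := h1.cancel (hV τ)
    unfold AlgW at h2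
    rw [Multiset.map_add, Multiset.prod_add, Multiset.map_replicate, Multiset.map_replicate,
      Multiset.prod_replicate, Multiset.prod_replicate, ← mul_pow] at h2
    exact mem_algebraicClosure_iff.2 (IsAlgebraic.of_pow hN (mem_algebraicClosure_iff.1 h2))
  have hpair' : ∀ τ, P.tl j (x1.act (τ * cc L)) * P.tl j (x2.act τ) /
      (2 * Real.pi * Complex.I) ∈ algebraicClosure ℚ ℂ := by
    intro τ
    have h1 := hpair τ
    have h2 : P.rl j (x1.act (τ * cc L)) * P.rl j (x2.act τ) =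
        (P.tl j (x1.act (τ * cc L)) * P.tl j (x2.act τ) / (2 * Real.pi * Complex.I)) ^ 2 := by
      unfold PeriodSystem.rl
      rw [div_mul_div_comm, div_pow, mul_pow, sq (2 * Real.pi * Complex.I : ℂ)]
    rw [h2] at h1
    exact mem_algebraicClosure_iff.2 (IsAlgebraic.of_pow two_pos (mem_algebraicClosure_iff.1 h1))
  -- the class of degree two
  let w2 : Fin (2 * 1) → Letter L := ![x1.act (cc L), x2]
  have h1 : P.IsDRB (wordX w2) 1 (trForm 1 (wordI w2)) := by
    refine drb_trForm j P w2 fun τ => ?_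
    have h2 := hpair' τ
    rw [← Letter.act_act] at h2
    rw [pow_one]
    have h3 : (∏ k, P.tl j ((w2 k).act τ)) =
        P.tl j ((x1.act (cc L)).act τ) * P.tl j (x2.act τ) :=
      Fin.prod_univ_two (fun k : Fin 2 => P.tl j ((w2 k).act τ))
    rw [h3]
    exact h2
  have h2 := hB _ _ h1
  apply hh0
  funext σ
  have h3 := balanced_of_hodge_word j w2 h2 σ
  have h4 : (∑ k, (w2 k).s j σ) = (x1.act (cc L)).s j σ + x2.s j σ :=
    Fin.sum_univ_two (fun k : Fin 2 => (w2 k).s j σ)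
  rw [h4, Letter.s_act, ← cc_comm j, Letter.s_cc] at h3
  have h5 := hdiff σ
  change h σ = 0
  omega


theorem hodge_of_drb_small (hB : P.Bost) (hD : P.Deligne) (X : CMAV)
    (hj : ∀ i, ∀ ψ : (X.factor i).E →+* ℂ, ∃ φ : (X.factor i).E →+* L, j.comp φ = ψ) (k : ℕ)
    (hsm : ∀ I : Fin (2 * k) → Wt X L,
      (fun σ : L ≃ₐ[ℚ] L => ∑ l, (⟨X.factor (I l).1, (I l).2⟩ : Letter L).s j σ) ≠ 0 →
      Small (cc L) (fun σ : L ≃ₐ[ℚ] L =>
        ∑ l, (⟨X.factor (I l).1, (I l).2⟩ : Letter L).s j σ))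
    (f : X.H1 [⋀^Fin (2 * k)]→ₗ[ℚ] ℚ) (hf : P.IsDRB X k f) : IsHodge X.per f := by
  classical
  obtain ⟨c, hc⟩ := form_coeff (E := fun i : X.I => (X.factor i).E) (fun i : X.I => i) j hj
    f.toMultilinearMap
  -- the periods of the monomials
  have hper : ∀ I : Fin (2 * k) → Wt X L, c I ≠ 0 → ∀ σ : L ≃ₐ[ℚ] L,
      (∏ l, P.th (⟨(I l).1, j.comp (σ • (I l).2)⟩ : Wt X ℂ)) / (2 * Real.pi * Complex.I) ^ k ∈
        algebraicClosure ℚ ℂ := by
    intro I hI σ
    let τ : L →+* ℂ := j.comp (σ : L →+* L)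
    have hτ : ∀ i, ∀ ψ : (X.factor i).E →+* ℂ, ∃ φ : (X.factor i).E →+* L, τ.comp φ = ψ := by
      intro i ψ
      obtain ⟨φ, rfl⟩ := hj i ψ
      refine ⟨σ.symm • φ, RingHom.ext fun x => ?_⟩
      change j (σ (σ.symm (φ x))) = j (φ x)
      rw [AlgEquiv.apply_symm_apply]
    let e : (Fin (2 * k) → Wt X L) ≃ (Fin (2 * k) → Wt X ℂ) :=
      Equiv.arrowCongr (Equiv.refl _)
        (xEquiv (E := fun i : X.I => (X.factor i).E) (fun i : X.I => i) τ hτ)
    let M : MultilinearMap ℂ (fun _ : Fin (2 * k) => Wt X ℂ → ℂ) ℂ :=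
      formOf (E := fun i : X.I => (X.factor i).E) (fun i : X.I => i)
        (fun I' => τ (c (e.symm I')))
    have hM : ∀ v : Fin (2 * k) → X.H1, M (fun l => chiX (v l)) = ((f v : ℚ) : ℂ) := by
      intro v
      change formOf (E := fun i : X.I => (X.factor i).E) (fun i : X.I => i)
        (fun I' => τ (c (e.symm I'))) (fun l => chiX (v l)) = _
      rw [formOf_apply]
      have h2 := congrArg τ (hc v)
      rw [map_ratCast] at h2
      refine Eq.trans ?_ h2.symm
      rw [map_sum]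
      refine (Fintype.sum_equiv e _ _ fun I => ?_).symm
      rw [map_mul, map_prod, Equiv.symm_apply_apply]
      rfl
    have hMe : M (eI (e I)) = τ (c I) := by
      have h3 := formOf_single (E := fun i : X.I => (X.factor i).E) (fun i : X.I => i)
        (fun I' => τ (c (e.symm I'))) (e I) (fun _ => (1 : ℂ))
      rw [Finset.prod_const_one, mul_one, Equiv.symm_apply_apply] at h3
      exact h3
    have h4 := alg_cx P hM hf (e I) (by
      rw [hMe]
      exact fun h0 => hI ((map_eq_zero τ).1 h0)) (by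
      rw [hMe, mem_algebraicClosure_iff]
      have h5 : IsAlgebraic ℚ (c I) := Algebra.IsAlgebraic.isAlgebraic _
      exact (isAlgebraic_algHom_iff (RingHom.equivRatAlgHom L ℂ τ) τ.injective).2 h5)
    exact h4
  -- the monomials are balanced
  have hbal : ∀ I : Fin (2 * k) → Wt X L, c I ≠ 0 → Balanced (fun l => St j (I l)) := by
    intro I hI σ
    let w : Multiset (Letter L) := (Finset.univ : Finset (Fin (2 * k))).val.map
      (fun l => (⟨X.factor (I l).1, (I l).2⟩ : Letter L))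
    have hw : ∀ τ, AlgW j P (w.map (Letter.act τ)) := by
      intro τ
      have h1 := pow_mem (hper I hI τ) 2
      unfold AlgW
      have h2 : ((w.map (Letter.act τ)).map (P.rl j)).prod =
          ∏ l, P.rl j ((⟨X.factor (I l).1, (I l).2⟩ : Letter L).act τ) := by
        simp only [w]
        rw [Multiset.map_map, Multiset.map_map]
        rfl
      rw [h2]
      have h3 : ((∏ l, P.th (⟨(I l).1, j.comp (τ • (I l).2)⟩ : Wt X ℂ)) /
          (2 * Real.pi * Complex.I) ^ k) ^ 2 =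
          ∏ l, P.rl j ((⟨X.factor (I l).1, (I l).2⟩ : Letter L).act τ) := by
        unfold PeriodSystem.rl
        rw [Finset.prod_div_distrib, Finset.prod_pow, div_pow, Finset.prod_const,
          Finset.card_univ, Fintype.card_fin, ← pow_mul, mul_comm k 2]
        rfl
      rwa [h3] at h1
    have h2 : ∀ σ : L ≃ₐ[ℚ] L, (w.map (fun x => x.s j σ)).sum =
        ∑ l, (⟨X.factor (I l).1, (I l).2⟩ : Letter L).s j σ := by
      intro σ
      simp only [w]
      rw [Multiset.map_map]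
      rfl
    have h1 := balanced_of_rl_small j P hB hD w hw (by
      simp only [h2]
      exact hsm I) σ
    rw [h2] at h1
    refine Eq.trans (Finset.sum_congr rfl fun l _ => ?_) h1
    by_cases h : σ ∈ St j (I l)
    · rw [if_pos h]
      exact (Letter.s_pos j (⟨X.factor (I l).1, (I l).2⟩ : Letter L) σ h).symm
    · rw [if_neg h]
      exact (Letter.s_neg j (⟨X.factor (I l).1, (I l).2⟩ : Letter L) σ h).symm
  -- the class is a sum of traces
  have hsum : ∀ v : Fin (2 * k) → X.H1,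
      ((Fintype.card (Perm (Fin (2 * k))) : ℕ) : L) * ((f v : ℚ) : L) =
        ∑ I : Fin (2 * k) → Wt X L, c I * mono I v := by
    intro v
    have h1 : ∀ σ : Perm (Fin (2 * k)), ((f v : ℚ) : L) = ((Perm.sign σ : ℤ) : L) *
        ∑ I : Fin (2 * k) → Wt X L, c I * ∏ l, ev (v (σ l)) (I l) := by
      intro σ
      have h2 : ((f (fun l => v (σ l)) : ℚ) : L) =
          ∑ I : Fin (2 * k) → Wt X L, c I * ∏ l, ev (v (σ l)) (I l) := hc (fun l => v (σ l))
      rw [← h2]
      have h3 : f (fun l => v (σ l)) = Perm.sign σ • f v := f.map_perm v σ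
      rw [h3, Units.smul_def, zsmul_eq_mul, Rat.cast_mul, Rat.cast_intCast, ← mul_assoc,
        ← Int.cast_mul, ← Units.val_mul, Int.units_mul_self, Units.val_one, Int.cast_one, one_mul]
    have h4 : ((Fintype.card (Perm (Fin (2 * k))) : ℕ) : L) * ((f v : ℚ) : L) =
        ∑ σ : Perm (Fin (2 * k)), ((Perm.sign σ : ℤ) : L) *
          ∑ I : Fin (2 * k) → Wt X L, c I * ∏ l, ev (v (σ l)) (I l) := by
      rw [← Finset.sum_congr rfl (fun σ _ => h1 σ), Finset.sum_const, Finset.card_univ,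
        nsmul_eq_mul]
    rw [h4]
    simp only [Finset.mul_sum]
    rw [Finset.sum_comm]
    refine Finset.sum_congr rfl fun I _ => ?_
    rw [mono_apply, Finset.mul_sum]
    refine Finset.sum_congr rfl fun σ _ => ?_
    ring
  set q : ℚ := (finrank ℚ L : ℚ) * (Fintype.card (Perm (Fin (2 * k))) : ℕ) with hq
  have hq0 : q ≠ 0 := mul_ne_zero (Nat.cast_ne_zero.2 finrank_pos.ne')
    (Nat.cast_ne_zero.2 Fintype.card_ne_zero)
  have h5 : q • f = ∑ I : Fin (2 * k) → Wt X L, trForm (c I) I := by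
    ext v
    let ev0 : (X.H1 [⋀^Fin (2 * k)]→ₗ[ℚ] ℚ) →+ ℚ :=
      { toFun := fun g => g v, map_zero' := rfl, map_add' := fun _ _ => rfl }
    have h8 : (∑ I : Fin (2 * k) → Wt X L, trForm (c I) I) v =
        ∑ I : Fin (2 * k) → Wt X L, trForm (c I) I v := map_sum ev0 _ _
    rw [AlternatingMap.smul_apply, h8]
    have h6 := congrArg (Algebra.trace ℚ L) (hsum v)
    have h7 : ((Fintype.card (Perm (Fin (2 * k))) : ℕ) : L) * ((f v : ℚ) : L) =
        algebraMap ℚ L ((Fintype.card (Perm (Fin (2 * k))) : ℕ) * f v) := by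
      rw [map_mul, map_natCast, eq_ratCast]
    rw [h7, Algebra.trace_algebraMap, map_sum, nsmul_eq_mul] at h6
    rw [smul_eq_mul, hq, mul_assoc]
    exact h6
  have h6 : IsHodge X.per (q • f) := by
    rw [h5]
    refine hodge_sum _ _ fun I _ => ?_
    by_cases hI : c I = 0
    · have h7 : trForm (c I) I = 0 := by
        ext v
        rw [trForm_apply, hI, zero_mul, map_zero]
        rfl
      rw [h7]
      exact hodge_zero X _
    · exact isHodge_trForm j I (hbal I hI) (c I)
  have h7 := hodge_smul q⁻¹ h6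
  rwa [smul_smul, inv_mul_cancel₀ hq0, one_smul] at h7

end

end Pool.Agent.W537.PC
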