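import Mathlib

/-!
# Rational idempotents of the cyclic group of prime order, and cycles of prime length
-/

open Finset Polynomial

namespace Pool.Agent.W537.PC

noncomputable section

/-- A rational linear relation between the powers of a root of unity of prime order. -/
theorem relation_const {p : ℕ} [hp : Fact p.Prime] {ζ : ℂ} (hζ : IsPrimitiveRoot ζ p)
    (b : ℕ → ℚ) (h : ∑ k ∈ range p, (b k : ℂ) * ζ ^ k = 0) :
    ∀ k < p, b k = b 0 := by
  let B : ℚ[X] := ∑ k ∈ range p, C (b k) * X ^ k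
  have hB : aeval ζ B = 0 := by
    simp only [B]
    rw [map_sum]
    refine Eq.trans (Finset.sum_congr rfl fun k _ => ?_) h
    rw [map_mul, aeval_C, map_pow, aeval_X, eq_ratCast]
  have hdvd : cyclotomic p ℚ ∣ B := by
    rw [cyclotomic_eq_minpoly_rat hζ hp.out.pos]
    exact minpoly.dvd ℚ _ hB
  have hcoeff : ∀ k < p, B.coeff k = b k := by
    intro k hk
    simp only [B]
    rw [finsetSum_coeff, Finset.sum_eq_single k]
    · rw [coeff_C_mul, coeff_X_pow_self, mul_one]
    · intro l _ hl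
      rw [coeff_C_mul, coeff_X_pow, if_neg (Ne.symm hl), mul_zero]
    · intro hk2
      exact absurd (mem_range.2 hk) hk2
  obtain ⟨Q, hQ⟩ := hdvd
  have hdeg : B.natDegree ≤ p - 1 := by
    simp only [B]
    refine natDegree_sum_le_of_forall_le _ _ fun k hk => ?_
    have hk' := mem_range.1 hk
    refine (natDegree_C_mul_X_pow_le _ _).trans (by omega)
  have hQ0 : ∃ t : ℚ, Q = C t := by
    by_cases hQ1 : Q = 0
    · exact ⟨0, by rw [hQ1, C_0]⟩
    · refine ⟨Q.coeff 0, eq_C_of_natDegree_eq_zero ?_⟩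
      have h1 : (cyclotomic p ℚ * Q).natDegree = (cyclotomic p ℚ).natDegree + Q.natDegree :=
        natDegree_mul (cyclotomic_ne_zero p ℚ) hQ1
      rw [← hQ, natDegree_cyclotomic, Nat.totient_prime hp.out] at h1
      omega
  obtain ⟨t, ht⟩ := hQ0
  have hall : ∀ k < p, b k = t := by
    intro k hk
    rw [← hcoeff k hk, hQ, ht, mul_comm, coeff_C_mul, cyclotomic_prime, finsetSum_coeff,
      Finset.sum_eq_single k]
    · rw [coeff_X_pow_self, mul_one]
    · intro l _ hl
      rw [coeff_X_pow, if_neg (Ne.symm hl)]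
    · intro hk2
      exact absurd (mem_range.2 hk) hk2
  intro k hk
  rw [hall k hk, hall 0 hp.out.pos]

/-- A rational idempotent for the cyclic convolution of prime length is constant outside zero. -/
theorem circ_const {p : ℕ} [hp : Fact p.Prime] (b : ZMod p → ℚ)
    (h : ∀ n, b n = ∑ k, b k * b (n - k)) (n : ZMod p) (hn : n ≠ 0) : b n = b 1 := by
  have : NeZero p := ⟨hp.out.ne_zero⟩
  let ζ : ℂ := Complex.exp (2 * Real.pi * Complex.I / p)
  have hζ : IsPrimitiveRoot ζ p := Complex.isPrimitiveRoot_exp p hp.out.ne_zero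
  have hmod : ∀ a : ℕ, ζ ^ (a % p) = ζ ^ a := fun a => by
    conv_rhs => rw [← Nat.mod_add_div a p, pow_add, pow_mul, hζ.pow_eq_one, one_pow, mul_one]
  have hper : ∀ k l : ZMod p, ζ ^ (k + l).val = ζ ^ k.val * ζ ^ l.val := by
    intro k l
    rw [← pow_add, ZMod.val_add, hmod]
  set A : ℂ := ∑ k : ZMod p, (b k : ℂ) * ζ ^ k.val with hA
  have hAA : A * A = A := by
    conv_rhs => rw [hA]
    have h1 : ∀ n : ZMod p, (b n : ℂ) * ζ ^ n.val =
        ∑ k : ZMod p, ((b k : ℂ) * ζ ^ k.val) * ((b (n - k) : ℂ) * ζ ^ (n - k).val) := by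
      intro n
      rw [h n]
      push_cast
      rw [Finset.sum_mul]
      refine Finset.sum_congr rfl fun k _ => ?_
      have h2 := hper k (n - k)
      rw [add_sub_cancel] at h2
      rw [h2]
      ring
    rw [Finset.sum_congr rfl (fun n _ => h1 n), Finset.sum_comm]
    rw [hA, Finset.sum_mul]
    refine Finset.sum_congr rfl fun k _ => ?_
    rw [← Finset.mul_sum]
    congr 1
    exact (Equiv.sum_comp (Equiv.subRight k) (fun l : ZMod p => (b l : ℂ) * ζ ^ l.val)).symm
  obtain ⟨ε, hε⟩ : ∃ ε : ℚ, A = ε := by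
    rcases eq_or_ne A 0 with h1 | h1
    · exact ⟨0, by rw [h1]; simp⟩
    · exact ⟨1, by
        have := mul_left_cancel₀ h1 (hAA.trans (mul_one A).symm)
        rw [this]; simp⟩
  have hAr : A = ∑ k ∈ range p, (b (k : ZMod p) : ℂ) * ζ ^ k := by
    rw [hA, ← Fin.sum_univ_eq_sum_range (fun k => (b (k : ZMod p) : ℂ) * ζ ^ k) p]
    obtain ⟨q, rfl⟩ : ∃ q, p = q + 1 := ⟨p - 1, (Nat.succ_pred_eq_of_pos hp.out.pos).symm⟩
    refine Finset.sum_congr rfl fun k _ => ?_
    change (b k : ℂ) * ζ ^ (ZMod.val k) =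
      (b ((ZMod.val k : ℕ) : ZMod (q + 1)) : ℂ) * ζ ^ (ZMod.val k)
    rw [ZMod.natCast_zmod_val]
  have h0 : ∑ k ∈ range p, (((b (k : ZMod p) - if k = 0 then ε else 0 : ℚ)) : ℂ) * ζ ^ k = 0 := by
    have h1 : ∀ k ∈ range p, (((b (k : ZMod p) - if k = 0 then ε else 0 : ℚ)) : ℂ) * ζ ^ k =
        (b (k : ZMod p) : ℂ) * ζ ^ k - (if k = 0 then (ε : ℂ) else 0) := by
      intro k _
      by_cases hk : k = 0
      · subst hk
        simp
      · simp [hk]
    rw [Finset.sum_congr rfl h1, Finset.sum_sub_distrib, ← hAr, hε, Finset.sum_ite_eq',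
      if_pos (mem_range.2 hp.out.pos), sub_self]
  have h1 := relation_const hζ (fun k => b (k : ZMod p) - if k = 0 then ε else 0) h0
  have h2 : ∀ m : ZMod p, m ≠ 0 → b m = b ((0 : ℕ) : ZMod p) - ε := by
    intro m hm
    have h3 := h1 m.val (ZMod.val_lt m)
    have h4 : m.val ≠ 0 := fun h5 => hm ((ZMod.val_eq_zero m).1 h5)
    simp only [ZMod.natCast_val, ZMod.cast_id', id_eq, if_neg h4, sub_zero, if_true] at h3
    exact h3
  rw [h2 n hn, h2 1 one_ne_zero]

/-- A transitive action on `2 p` letters which commutes with a fixed point free involution has an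
element that permutes the letters in two conjugate cycles of length `p`. -/
theorem exists_two_cycles {G T : Type} [Group G] [Finite G] [Fintype T] [DecidableEq T]
    [MulAction G T] {p : ℕ} [hp : Fact p.Prime] (hp2 : p ≠ 2)
    (hcard : Fintype.card T = 2 * p) (htr : ∀ x y : T, ∃ g : G, g • x = y) (c : G)
    (hc : ∀ g : G, g * c = c * g) (hc2 : ∀ x : T, c • c • x = x) (hne : ∀ x : T, c • x ≠ x) :
    ∃ (g : G) (t : T), (∀ k : ℕ, g ^ k • t = t ↔ p ∣ k) ∧ (∀ k l : ℕ, g ^ k • t ≠ c • g ^ l • t) ∧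
      ∀ y : T, ∃ k : ℕ, y = g ^ k • t ∨ y = c • g ^ k • t := by
  classical
  have : Nonempty T := by
    rw [← Fintype.card_pos_iff, hcard]
    have := hp.out.pos
    omega
  obtain ⟨t1⟩ := this
  let H := (MulAction.toPermHom G T).range
  have hHcard : p ∣ Nat.card H := by
    have h1 := Nat.card_congr (MulAction.orbitEquivQuotientStabilizer H t1)
    have h2 : Nat.card (MulAction.orbit H t1) = 2 * p := by
      have h3 : MulAction.orbit H t1 = Set.univ := by
        rw [Set.eq_univ_iff_forall]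
        intro y
        obtain ⟨g, hg⟩ := htr t1 y
        exact ⟨⟨MulAction.toPermHom G T g, g, rfl⟩, hg⟩
      rw [h3, Nat.card_univ, Nat.card_eq_fintype_card, hcard]
    rw [h2] at h1
    have h4 := Subgroup.card_eq_card_quotient_mul_card_subgroup (MulAction.stabilizer H t1)
    rw [h4, ← h1]
    exact ⟨2 * Nat.card (MulAction.stabilizer H t1), by ring⟩
  obtain ⟨⟨_, g, rfl⟩, hord⟩ := exists_prime_orderOf_dvd_card' p hHcard
  have hgp : ∀ y : T, g ^ p • y = y := by
    intro y
    have h1 := pow_orderOf_eq_one (⟨MulAction.toPermHom G T g, g, rfl⟩ : H)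
    rw [hord] at h1
    have h2 := congrArg Subtype.val h1
    have h3 : (MulAction.toPermHom G T g) ^ p = 1 := h2
    rw [← map_pow] at h3
    exact Equiv.congr_fun h3 y
  obtain ⟨t, ht⟩ : ∃ t : T, g • t ≠ t := by
    by_contra hcon
    push Not at hcon
    have h1 : (⟨MulAction.toPermHom G T g, g, rfl⟩ : H) = 1 := by
      apply Subtype.ext
      exact Equiv.ext hcon
    rw [h1, orderOf_one] at hord
    exact hp.out.one_lt.ne hord
  have hper : ∀ k : ℕ, g ^ k • t = t ↔ p ∣ k := by
    intro k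
    have h1 : MulAction.period g t ∣ p := by
      rw [← MulAction.pow_smul_eq_iff_period_dvd]
      exact hgp t
    have h2 : MulAction.period g t ≠ 1 := by
      intro h3
      rw [MulAction.period_eq_one_iff] at h3
      exact ht h3
    have h3 := (Nat.dvd_prime hp.out).1 h1
    rw [MulAction.pow_smul_eq_iff_period_dvd, h3.resolve_left h2]
  have hcg : ∀ (u : G) (y : T), u • c • y = c • u • y := fun u y => by
    rw [← mul_smul, hc, mul_smul]
  have hne2 : ∀ k : ℕ, g ^ k • t ≠ c • t := by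
    intro k hk
    have h1 : g ^ (2 * k) • t = t := by
      rw [two_mul, pow_add, mul_smul, hk, hcg, hk, hc2]
    rw [hper] at h1
    have h2 := (Nat.Coprime.dvd_mul_left ((Nat.coprime_primes hp.out Nat.prime_two).2 hp2)).1 h1
    rw [(hper k).2 h2] at hk
    exact hne t hk.symm
  have hdisj : ∀ k l : ℕ, g ^ k • t ≠ c • g ^ l • t := by
    intro k l hkl
    obtain ⟨q, hq⟩ : ∃ q : ℕ, p ∣ l + q := ⟨p * l - l, by
      rw [Nat.add_sub_cancel' (Nat.le_mul_of_pos_left l hp.out.pos)]
      exact ⟨l, rfl⟩⟩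
    apply hne2 (q + k)
    rw [pow_add, mul_smul, hkl, hcg, ← mul_smul (g ^ q) (g ^ l) t, ← pow_add, add_comm q l,
      (hper _).2 hq]
  refine ⟨g, t, hper, hdisj, ?_⟩
  let O : Finset T := (range p).image fun k => g ^ k • t
  have hOcard : O.card = p := by
    rw [Finset.card_image_of_injOn, card_range]
    have key : ∀ a b : ℕ, a ≤ b → b < p → g ^ a • t = g ^ b • t → a = b := by
      intro a b hab hb h1
      have h2 : g ^ (b - a) • t = t := by
        have h3 : g ^ b = g ^ a * g ^ (b - a) := by rw [← pow_add]; congr 1; omega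
        rw [h3, mul_smul] at h1
        exact (smul_left_cancel _ h1).symm
      rw [hper] at h2
      have h3 := Nat.eq_zero_of_dvd_of_lt h2 (by omega)
      omega
    intro a ha b hb h1
    rw [Finset.coe_range, Set.mem_Iio] at ha hb
    rcases le_total a b with h2 | h2
    · exact key a b h2 hb h1
    · exact (key b a h2 ha h1.symm).symm
  have hO2 : (O.image fun y => c • y).card = p := by
    rw [Finset.card_image_of_injective _ (MulAction.injective c), hOcard]
  have hdis : Disjoint O (O.image fun y => c • y) := by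
    rw [Finset.disjoint_left]
    intro y hy hy2
    obtain ⟨k, -, rfl⟩ := Finset.mem_image.1 hy
    obtain ⟨z, hz, hz2⟩ := Finset.mem_image.1 hy2
    obtain ⟨l, -, rfl⟩ := Finset.mem_image.1 hz
    exact hdisj k l hz2.symm
  have huniv : O ∪ (O.image fun y => c • y) = Finset.univ := by
    apply Finset.eq_univ_of_card
    rw [Finset.card_union_of_disjoint hdis, hOcard, hO2, hcard, two_mul]
  intro y
  have hy : y ∈ O ∪ (O.image fun y => c • y) := by rw [huniv]; exact Finset.mem_univ y
  rcases Finset.mem_union.1 hy with h1 | h1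
  · obtain ⟨k, -, hk⟩ := Finset.mem_image.1 h1
    exact ⟨k, Or.inl hk.symm⟩
  · obtain ⟨z, hz, hz2⟩ := Finset.mem_image.1 h1
    obtain ⟨k, -, hk⟩ := Finset.mem_image.1 hz
    exact ⟨k, Or.inr (by rw [hk]; exact hz2.symm)⟩

end

end Pool.Agent.W537.PC
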