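import Mathlib
import Pool.Agent.W537.PC.Defs
import Pool.Agent.W591.HC.Defs

/-!
# Generic fields of complex multiplication
-/

namespace Pool.Agent.W537.PC

open NumberField Pool.Agent.H204R3.CM Pool.Agent.W547.KB Pool.Agent.W591.HC

/-- The product, over `a : J`, of the abelian varieties of CM types `A (t a)`. -/
abbrev copies {ι J : Type} [Fintype J] (A : ι → CMPair) (t : J → ι) : CMAV := ⟨J, fun a => A (t a)⟩

/-- No pair of embeddings is rigid. -/
def NoRigid (E : Type) [Field E] : Prop := ∀ x y : E →+* ℂ, ¬ Rigid x y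

/-- The field contains an imaginary quadratic field, and the rigid pairs of embeddings form one
orbit. -/
def QuadraticTransitive (E : Type) [Field E] [NumberField E] : Prop :=
  (∃ (d : E) (q : ℚ), q < 0 ∧ d ^ 2 = q) ∧ OneRigidOrbit E

/-- The field has degree `2 p` for an odd prime number `p`. -/
def TwicePrime (E : Type) [Field E] [NumberField E] : Prop :=
  ∃ p : ℕ, p.Prime ∧ p ≠ 2 ∧ Module.finrank ℚ E = 2 * p

end Pool.Agent.W537.PC
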