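import Pool.Agent.W537.PC.Rep
import Pool.Agent.W537.PC.Circ
import Pool.Agent.W537.PC.FamDefs

/-!
# Small functions for families of CM fields
-/

set_option linter.unusedSectionVars false
set_option linter.unusedVariables false

open Finset

namespace Pool.Agent.W537.PC

open NumberField Pool.Agent.H204R3.CM Pool.Agent.W547.KB Pool.Agent.W591.HC

noncomputable section

theorem sum_half {G Y : Type} [Group G] [Fintype Y] [MulAction G Y] [DecidableEq Y] {c : G}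
    (O : Finset Y) (hO : ∀ y ∈ O, c • y ∉ O) (hc2 : ∀ y : Y, c • c • y = y) (v w : Y → ℚ)
    (hv : ∀ y, v (c • y) = - v y) (hw : ∀ y, w (c • y) = - w y)
    (hsupp : ∀ y, y ∉ O → c • y ∉ O → v y = 0) :
    ∑ y, v y * w y = 2 * ∑ y ∈ O, v y * w y := by
  have hinj : Function.Injective (fun y : Y => c • y) := MulAction.injective c
  have h1 : ∑ y, v y * w y = ∑ y ∈ O ∪ O.image (fun y => c • y), v y * w y := by
    symm
    refine Finset.sum_subset (Finset.subset_univ _) fun y _ hy => ?_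
    rw [Finset.mem_union, not_or] at hy
    rw [hsupp y hy.1, zero_mul]
    intro h
    exact hy.2 (Finset.mem_image.2 ⟨c • y, h, hc2 y⟩)
  rw [h1, Finset.sum_union, Finset.sum_image (fun a _ b _ h => hinj h), two_mul]
  · congr 1
    refine Finset.sum_congr rfl fun y _ => ?_
    rw [hv, hw]
    ring
  · rw [Finset.disjoint_left]
    intro y hy hy2
    obtain ⟨z, hz, rfl⟩ := Finset.mem_image.1 hy2
    exact hO z hz hy

variable {ι : Type} [Fintype ι] (A : ι → CMPair) {L : Type} [Field L] [NumberField L]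
  [IsCMField L] [IsGalois ℚ L] (j : L →+* ℂ)

/-- The letters: embeddings of the fields into `L`. -/
abbrev YY (A : ι → CMPair) (L : Type) [Field L] : Type := Σ i, ((A i).E →+* L)

/-- The signs of the letters. -/
def sY (y : YY A L) (σ : L ≃ₐ[ℚ] L) : ℤ := (⟨A y.1, y.2⟩ : Letter L).s j σ

theorem sY1 (y : YY A L) (σ : L ≃ₐ[ℚ] L) : sY A j y σ = 1 ∨ sY A j y σ = -1 :=
  Letter.s_cases j _ σ

theorem sY2 (u : L ≃ₐ[ℚ] L) (y : YY A L) (σ : L ≃ₐ[ℚ] L) :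
    sY A j (u • y) σ = sY A j y (σ * u) :=
  Letter.s_act j u σ (⟨A y.1, y.2⟩ : Letter L)

theorem sY3 (y : YY A L) (σ : L ≃ₐ[ℚ] L) : sY A j (cc L • y) σ = - sY A j y σ := by
  rw [sY2, ← cc_comm j]
  exact Letter.s_cc j σ (⟨A y.1, y.2⟩ : Letter L)

include j in
theorem ccY_comm (g : L ≃ₐ[ℚ] L) : g * cc L = cc L * g := (cc_comm j g).symm

theorem ccY2 (y : YY A L) : cc L • cc L • y = y := by
  rw [← mul_smul, cc_cc, one_smul]

include j in
theorem ccY_ne (y : YY A L) : cc L • y ≠ y := by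
  intro h
  have h1 := sY3 A j y 1
  rw [h] at h1
  rcases sY1 A j y 1 with h2 | h2 <;> rw [h2] at h1 <;> norm_num at h1

include j in
theorem ccE_ne {i : ι} (φ : (A i).E →+* L) : cc L • φ ≠ φ := by
  intro h
  exact ccY_ne A j (⟨i, φ⟩ : YY A L) (by
    change (⟨i, cc L • φ⟩ : YY A L) = ⟨i, φ⟩
    rw [h])

theorem ccE2 {i : ι} (φ : (A i).E →+* L) : cc L • cc L • φ = φ := by
  rw [← mul_smul, cc_cc, one_smul]

/-- Different fields are independent. -/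
def Hind (A : ι → CMPair) (L : Type) [Field L] [NumberField L] [IsCMField L] : Prop :=
  ∀ x y : YY A L, x.1 ≠ y.1 → ∃ τ : L ≃ₐ[ℚ] L, τ • x = x ∧ τ • y = cc L • y

variable {A} {m : YY A L → ℚ} (hm : ∀ y, m (cc L • y) = - m y) (hind : Hind A L)

include j hm hind in
theorem pr_cross {x y : YY A L} (h : x.1 ≠ y.1) : pr (US (L ≃ₐ[ℚ] L) m) x y = 0 := by
  obtain ⟨τ, h1, h2⟩ := hind x y h
  exact pr_zero_of_flip (ccY_comm j) hm τ h1 h2

include j hm hind in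
theorem sv_norigid {x : YY A L} (hF : ∃ σ, FF (sY A j) (pr (US (L ≃ₐ[ℚ] L) m) x) σ ≠ 0)
    (h : ∀ ψ : (A x.1).E →+* L, ψ ≠ x.2 → ψ ≠ cc L • x.2 → ∃ τ : L ≃ₐ[ℚ] L,
      (τ • x.2 = x.2 ∧ τ • ψ = cc L • ψ) ∨ (τ • x.2 = ψ ∧ τ • ψ = cc L • x.2)) :
    SV (G := L ≃ₐ[ℚ] L) (sY A j) m := by
  refine sv_case1 (ccY_comm j) (ccY2 A) hm (sY A j) (sY1 A j) (sY3 A j) (ccY_ne A j x) hF ?_
  rintro ⟨k, ψ⟩ h1 h2
  by_cases hk : x.1 = k
  · obtain ⟨i, φ⟩ := x
    change i = k at hk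
    subst hk
    have h1' : ψ ≠ φ := fun h3 => h1 (by rw [h3])
    have h2' : ψ ≠ cc L • φ := fun h3 => h2 (by rw [h3]; rfl)
    obtain ⟨τ, h3 | h3⟩ := h ψ h1' h2'
    · refine pr_zero_of_flip (ccY_comm j) hm τ ?_ ?_
      · change (⟨i, τ • φ⟩ : YY A L) = ⟨i, φ⟩
        exact congrArg (Sigma.mk i) h3.1
      · change (⟨i, τ • ψ⟩ : YY A L) = ⟨i, cc L • ψ⟩
        exact congrArg (Sigma.mk i) h3.2
    · refine pr_zero_of_swap (ccY_comm j) hm τ ?_ ?_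
      · change (⟨i, τ • φ⟩ : YY A L) = ⟨i, ψ⟩
        exact congrArg (Sigma.mk i) h3.1
      · change (⟨i, τ • ψ⟩ : YY A L) = ⟨i, cc L • φ⟩
        exact congrArg (Sigma.mk i) h3.2
  · exact pr_cross j hm hind hk

open Classical in
include j hm hind in
/-- The case of constant projections on a half system. -/
theorem sv_half {i : ι} {φ : (A i).E →+* L}
    (hF : ∃ σ, FF (sY A j) (pr (US (L ≃ₐ[ℚ] L) m) (⟨i, φ⟩ : YY A L)) σ ≠ 0)
    (O : Finset ((A i).E →+* L)) (hO : ∀ ψ, ψ ∈ O ↔ cc L • ψ ∉ O) (β : ℚ)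
    (hβ : ∀ ψ ∈ O, ∀ χ ∈ O, ψ ≠ χ →
      pr (US (L ≃ₐ[ℚ] L) m) (⟨i, ψ⟩ : YY A L) ⟨i, χ⟩ = β) :
    SV (G := L ≃ₐ[ℚ] L) (sY A j) m := by
  -- we may assume that the embedding lies in the half system
  have key : ∀ φ : (A i).E →+* L, φ ∈ O →
      (∃ σ, FF (sY A j) (pr (US (L ≃ₐ[ℚ] L) m) (⟨i, φ⟩ : YY A L)) σ ≠ 0) →
      SV (G := L ≃ₐ[ℚ] L) (sY A j) m := by
    intro φ hφ hF
    let O' : Finset (YY A L) := O.image (fun ψ => (⟨i, ψ⟩ : YY A L))
    have hmem : ∀ ψ : (A i).E →+* L, (⟨i, ψ⟩ : YY A L) ∈ O' ↔ ψ ∈ O := by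
      intro ψ
      simp only [O', Finset.mem_image, Sigma.mk.injEq, heq_eq_eq, true_and, exists_eq_right]
    have hmem' : ∀ y : YY A L, y ∈ O' → y.1 = i := by
      intro y hy
      obtain ⟨ψ, -, rfl⟩ := Finset.mem_image.1 hy
      rfl
    have hcov : ∀ y : YY A L, y.1 = i → y ∈ O' ∨ cc L • y ∈ O' := by
      rintro ⟨k, ψ⟩ hk
      change k = i at hk
      subst hk
      by_cases h : ψ ∈ O
      · exact Or.inl ((hmem ψ).2 h)
      · right
        change (⟨k, cc L • ψ⟩ : YY A L) ∈ O'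
        rw [hmem]
        by_contra h2
        exact h ((hO ψ).2 h2)
    refine sv_case2 (α := pr (US (L ≃ₐ[ℚ] L) m) (⟨i, φ⟩ : YY A L) ⟨i, φ⟩) (β := β)
      (ccY_comm j) (ccY2 A) hm (sY A j) (sY1 A j) (sY2 A j) (sY3 A j) hF O' ((hmem φ).2 hφ)
      ?_ ?_ ?_ ?_ ?_
    · intro y hy hy2
      obtain ⟨ψ, hψ, rfl⟩ := Finset.mem_image.1 hy
      have h3 : (⟨i, cc L • ψ⟩ : YY A L) ∈ O' := hy2
      rw [hmem] at h3
      exact (hO ψ).1 hψ h3
    · intro z hz y hy hy2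
      refine pr_cross j hm hind fun h3 => ?_
      rcases hcov y (h3.symm.trans (hmem' z hz)) with h4 | h4
      · exact hy h4
      · exact hy2 h4
    · intro u z hz
      exact hcov (u • z) (hmem' z hz)
    · intro z hz
      obtain ⟨ψ, hψ, rfl⟩ := Finset.mem_image.1 hz
      obtain ⟨g, hg⟩ := MulAction.exists_smul_eq (L ≃ₐ[ℚ] L) φ ψ
      have h3 := pr_inv m g (⟨i, φ⟩ : YY A L) ⟨i, φ⟩
      have h4 : g • (⟨i, φ⟩ : YY A L) = ⟨i, ψ⟩ := congrArg (Sigma.mk i) hg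
      rw [h4] at h3
      exact h3
    · intro y hy z hz hyz
      obtain ⟨ψ, hψ, rfl⟩ := Finset.mem_image.1 hy
      obtain ⟨χ, hχ, rfl⟩ := Finset.mem_image.1 hz
      exact hβ ψ hψ χ hχ fun h3 => hyz (by rw [h3])
  by_cases hφ : φ ∈ O
  · exact key φ hφ hF
  · refine key (cc L • φ) (by
      by_contra h2
      exact hφ ((hO φ).2 h2)) ?_
    obtain ⟨σ, hσ⟩ := hF
    refine ⟨σ, ?_⟩
    have h5 : pr (US (L ≃ₐ[ℚ] L) m) (⟨i, cc L • φ⟩ : YY A L) =
        (-1 : ℚ) • pr (US (L ≃ₐ[ℚ] L) m) (⟨i, φ⟩ : YY A L) := by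
      funext y
      have h6 := pr_odd' (ccY_comm j) hm (⟨i, φ⟩ : YY A L) y
      rw [Pi.smul_apply, smul_eq_mul, neg_one_mul]
      exact h6
    rw [h5, FF_smul]
    simpa using hσ

open Classical in
include j hm hind in
theorem sv_quad {i : ι} {φ : (A i).E →+* L}
    (hF : ∃ σ, FF (sY A j) (pr (US (L ≃ₐ[ℚ] L) m) (⟨i, φ⟩ : YY A L)) σ ≠ 0)
    (O : Finset ((A i).E →+* L)) (hO : ∀ ψ, ψ ∈ O ↔ cc L • ψ ∉ O)
    (h : ∀ x ∈ O, ∀ y ∈ O, ∀ x' ∈ O, ∀ y' ∈ O, x ≠ y → x' ≠ y' → ∃ τ : L ≃ₐ[ℚ] L,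
      (τ • x = x' ∧ τ • y = y') ∨ (τ • x = cc L • x' ∧ τ • y = cc L • y') ∨
      (τ • x = y' ∧ τ • y = x') ∨ (τ • x = cc L • y' ∧ τ • y = cc L • x')) :
    SV (G := L ≃ₐ[ℚ] L) (sY A j) m := by
  have hcon : ∀ x ∈ O, ∀ y ∈ O, ∀ x' ∈ O, ∀ y' ∈ O, x ≠ y → x' ≠ y' →
      pr (US (L ≃ₐ[ℚ] L) m) (⟨i, x⟩ : YY A L) ⟨i, y⟩ =
        pr (US (L ≃ₐ[ℚ] L) m) (⟨i, x'⟩ : YY A L) ⟨i, y'⟩ := by
    intro x hx y hy x' hx' y' hy' hxy hxy'
    obtain ⟨τ, hτ⟩ := h x hx y hy x' hx' y' hy' hxy hxy'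
    rw [← pr_inv m τ]
    have e1 : ∀ ψ : (A i).E →+* L, τ • (⟨i, ψ⟩ : YY A L) = ⟨i, τ • ψ⟩ := fun ψ => rfl
    have e2 : ∀ ψ : (A i).E →+* L, (⟨i, cc L • ψ⟩ : YY A L) = cc L • ⟨i, ψ⟩ := fun ψ => rfl
    rw [e1, e1]
    rcases hτ with h1 | h1 | h1 | h1
    · rw [h1.1, h1.2]
    · rw [h1.1, h1.2, e2, e2, pr_odd (ccY_comm j) hm, pr_odd' (ccY_comm j) hm, neg_neg]
    · rw [h1.1, h1.2, pr_symm]
    · rw [h1.1, h1.2, e2, e2, pr_odd (ccY_comm j) hm, pr_odd' (ccY_comm j) hm, neg_neg, pr_symm]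
  by_cases h2 : ∃ x ∈ O, ∃ y ∈ O, x ≠ y
  · obtain ⟨x, hx, y, hy, hxy⟩ := h2
    exact sv_half j hm hind hF O hO (pr (US (L ≃ₐ[ℚ] L) m) (⟨i, x⟩ : YY A L) ⟨i, y⟩)
      fun ψ hψ χ hχ hne => hcon ψ hψ χ hχ x hx y hy hne hxy
  · push Not at h2
    exact sv_half j hm hind hF O hO 0 fun ψ hψ χ hχ hne => absurd (h2 ψ hψ χ hχ) hne

open Classical in
include j hm hind in
theorem sv_prime {i : ι} {φ : (A i).E →+* L}
    (hF : ∃ σ, FF (sY A j) (pr (US (L ≃ₐ[ℚ] L) m) (⟨i, φ⟩ : YY A L)) σ ≠ 0)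
    {p : ℕ} [hp : Fact p.Prime] (hp2 : p ≠ 2)
    (hcard : Fintype.card ((A i).E →+* L) = 2 * p) : SV (G := L ≃ₐ[ℚ] L) (sY A j) m := by
  have : NeZero p := ⟨hp.out.ne_zero⟩
  obtain ⟨g, t, hper, hdisj, hcov⟩ := exists_two_cycles (G := L ≃ₐ[ℚ] L)
    (T := (A i).E →+* L) hp2 hcard (fun x y => MulAction.exists_smul_eq (L ≃ₐ[ℚ] L) x y)
    (cc L) (ccY_comm j) (ccE2 A) (ccE_ne A j)
  -- periodicity
  have hmod : ∀ a b : ℕ, (a : ZMod p) = b → g ^ a • t = g ^ b • t := by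
    have key : ∀ a b : ℕ, a ≤ b → (a : ZMod p) = b → g ^ a • t = g ^ b • t := by
      intro a b hab h
      have h1 : p ∣ b - a := by
        rw [← Nat.modEq_iff_dvd' hab]
        exact (ZMod.natCast_eq_natCast_iff _ _ _).1 h
      have h2 : g ^ b = g ^ a * g ^ (b - a) := by rw [← pow_add]; congr 1; omega
      rw [h2, mul_smul, (hper _).2 h1]
    intro a b h
    rcases le_total a b with h1 | h1
    · exact key a b h1 h
    · exact (key b a h1 h.symm).symm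
  let e : ZMod p → (A i).E →+* L := fun k => g ^ k.val • t
  have he : ∀ k : ℕ, g ^ k • t = e k := by
    intro k
    refine hmod _ _ ?_
    rw [ZMod.natCast_zmod_val]
  have heinj : Function.Injective e := by
    have key : ∀ a b : ZMod p, a.val ≤ b.val → e a = e b → a = b := by
      intro a b hab h
      have h3 : g ^ (b.val - a.val) • t = t := by
        have h2 : g ^ b.val = g ^ a.val * g ^ (b.val - a.val) := by
          rw [← pow_add]; congr 1; omega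
        change g ^ a.val • t = g ^ b.val • t at h
        rw [h2, mul_smul] at h
        exact (smul_left_cancel _ h).symm
      rw [hper] at h3
      have h4 := ZMod.val_lt b
      have h5 := Nat.eq_zero_of_dvd_of_lt h3 (by omega)
      exact ZMod.val_injective p (by omega)
    intro a b h
    rcases le_total a.val b.val with h1 | h1
    · exact key a b h1 h
    · exact (key b a h1 h.symm).symm
  let O : Finset ((A i).E →+* L) := Finset.univ.image e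
  have hmemO : ∀ k : ℕ, g ^ k • t ∈ O := fun k => by
    rw [he]
    exact Finset.mem_image_of_mem _ (Finset.mem_univ _)
  have hO : ∀ ψ, ψ ∈ O ↔ cc L • ψ ∉ O := by
    intro ψ
    constructor
    · intro h1 h2
      obtain ⟨a, -, rfl⟩ := Finset.mem_image.1 h1
      obtain ⟨b, -, hb⟩ := Finset.mem_image.1 h2
      exact hdisj b.val a.val hb
    · intro h1
      obtain ⟨k, hk | hk⟩ := hcov ψ
      · rw [hk]
        exact hmemO k
      · exfalso
        apply h1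
        rw [hk, ccE2]
        exact hmemO k
  -- the projections
  set Q : ZMod p → ZMod p → ℚ := fun a b =>
    pr (US (L ≃ₐ[ℚ] L) m) (⟨i, e a⟩ : YY A L) ⟨i, e b⟩ with hQ
  have hQs : ∀ a b, Q a b = Q b a := fun a b => pr_symm _ _ _
  have hQt : ∀ a b : ZMod p, Q a b = Q 0 (b - a) := by
    intro a b
    have h1 := pr_inv m (g ^ a.val) (⟨i, e 0⟩ : YY A L) ⟨i, e (b - a)⟩
    have h2 : g ^ a.val • (⟨i, e 0⟩ : YY A L) = ⟨i, e a⟩ := by
      change (⟨i, g ^ a.val • g ^ (0 : ZMod p).val • t⟩ : YY A L) = ⟨i, e a⟩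
      rw [ZMod.val_zero, pow_zero, one_smul]
    have h3 : g ^ a.val • (⟨i, e (b - a)⟩ : YY A L) = ⟨i, e b⟩ := by
      change (⟨i, g ^ a.val • g ^ (b - a).val • t⟩ : YY A L) = ⟨i, e b⟩
      rw [← mul_smul, ← pow_add, he]
      congr 2
      push_cast
      rw [ZMod.natCast_zmod_val, ZMod.natCast_zmod_val, add_sub_cancel]
    rw [h2, h3] at h1
    exact h1
  let b : ZMod p → ℚ := fun n => 2 * Q 0 n
  have hb : ∀ n, b n = ∑ k, b k * b (n - k) := by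
    intro n
    have h1 := pr_spec (US (L ≃ₐ[ℚ] L) m) (⟨i, e 0⟩ : YY A L)
      (pr_mem (US (L ≃ₐ[ℚ] L) m) (⟨i, e n⟩ : YY A L))
    let O' : Finset (YY A L) := Finset.univ.image (fun k => (⟨i, e k⟩ : YY A L))
    rw [sum_half (c := cc L) O' (by
      intro y hy hy2
      obtain ⟨a, -, rfl⟩ := Finset.mem_image.1 hy
      obtain ⟨a', -, ha'⟩ := Finset.mem_image.1 hy2
      have h3 : (⟨i, e a'⟩ : YY A L) = ⟨i, cc L • e a⟩ := ha'
      have h4 := eq_of_heq (Sigma.mk.inj h3).2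
      exact hdisj a'.val a.val h4) (ccY2 A) _ _ (pr_odd (ccY_comm j) hm _)
      (pr_odd (ccY_comm j) hm _) (by
      rintro ⟨k, ψ⟩ hy hy2
      by_cases hk : i = k
      · exfalso
        subst hk
        obtain ⟨a, ha | ha⟩ := hcov ψ
        · apply hy
          rw [ha, he]
          exact Finset.mem_image_of_mem _ (Finset.mem_univ _)
        · apply hy2
          change (⟨i, cc L • ψ⟩ : YY A L) ∈ O'
          rw [ha, ccE2, he]
          exact Finset.mem_image_of_mem (fun k => (⟨i, e k⟩ : YY A L)) (Finset.mem_univ _)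
      · exact pr_cross j hm hind hk)] at h1
    have hinjO : Function.Injective (fun k => (⟨i, e k⟩ : YY A L)) :=
      fun a a' h => heinj (eq_of_heq (Sigma.mk.inj h).2)
    have h5 : ∑ y ∈ O', pr (US (L ≃ₐ[ℚ] L) m) (⟨i, e 0⟩ : YY A L) y *
        pr (US (L ≃ₐ[ℚ] L) m) (⟨i, e n⟩ : YY A L) y = ∑ k, Q 0 k * Q n k := by
      simp only [O']
      rw [Finset.sum_image hinjO.injOn]
    rw [h5] at h1
    change 2 * ∑ k, Q 0 k * Q n k = Q n 0 at h1
    change 2 * Q 0 n = ∑ k, (2 * Q 0 k) * (2 * Q 0 (n - k))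
    rw [← hQs n 0, ← h1, Finset.mul_sum, Finset.mul_sum]
    refine Finset.sum_congr rfl fun k _ => ?_
    rw [hQs n k, hQt k n]
    ring
  refine sv_half j hm hind hF O hO (Q 0 1) ?_
  intro ψ hψ χ hχ hne
  obtain ⟨a, -, rfl⟩ := Finset.mem_image.1 hψ
  obtain ⟨a', -, rfl⟩ := Finset.mem_image.1 hχ
  change Q a a' = Q 0 1
  rw [hQt]
  have h1 := circ_const b hb (a' - a) (fun h0 => hne (by rw [sub_eq_zero.1 h0]))
  change 2 * Q 0 (a' - a) = 2 * Q 0 1 at h1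
  linarith

end

end Pool.Agent.W537.PC
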