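import Pool.Agent.W537.PC.Fam

/-!
# De Rham-Betti classes for generic fields of complex multiplication
-/

set_option linter.unusedSectionVars false
set_option linter.unusedVariables false

open Finset

namespace Pool.Agent.W537.PC

open NumberField Pool.Agent.H204R3.CM Pool.Agent.W547.KB Pool.Agent.W591.HC

noncomputable section

section transfer

variable {L : Type} [Field L] [NumberField L] [IsCMField L] [IsGalois ℚ L] (j : L →+* ℂ)

theorem emb_inj {F : Type} [Field F] {φ φ' : F →+* L} (h : j.comp φ = j.comp φ') : φ = φ' := by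
  ext x
  exact j.injective (RingHom.congr_fun h x)

theorem conj_comp {F : Type} [Field F] (φ : F →+* L) :
    ComplexEmbedding.conjugate (j.comp φ) = j.comp (cc L • φ) := by
  ext x
  rw [ComplexEmbedding.conjugate_coe_eq]
  exact (emb_cc j (φ x)).symm

theorem exists_gal (τ : ℂ ≃+* ℂ) : ∃ u : L ≃ₐ[ℚ] L, ∀ (F : Type) [Field F] (φ : F →+* L),
    (τ : ℂ →+* ℂ).comp (j.comp φ) = j.comp (u • φ) := by
  obtain ⟨u, hu⟩ := comp_surjective j ((τ : ℂ →+* ℂ).comp j)
  refine ⟨u, fun F _ φ => ?_⟩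
  ext x
  exact (RingHom.congr_fun hu (φ x)).symm

end transfer

variable {ι : Type} [Fintype ι] {A : ι → CMPair} {L : Type} [Field L] [NumberField L]
  [IsCMField L] [IsGalois ℚ L] (j : L →+* ℂ)

include j in
theorem hind_of (h : ∀ i k, i ≠ k → Independent (A i).E (A k).E) : Hind A L := by
  rintro ⟨i, φ⟩ ⟨k, ψ⟩ hik
  obtain ⟨τ, h1, h2⟩ := h i k hik (j.comp φ) (j.comp ψ)
  obtain ⟨u, hu⟩ := exists_gal j τ
  rw [hu] at h1 h2
  rw [conj_comp] at h2
  exact ⟨u, congrArg (Sigma.mk i) (emb_inj j h1), congrArg (Sigma.mk k) (emb_inj j h2)⟩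

include j in
theorem norigid_of {E : Type} [Field E] (h : NoRigid E) {φ ψ : E →+* L} (h1 : ψ ≠ φ)
    (h2 : ψ ≠ cc L • φ) : ∃ τ : L ≃ₐ[ℚ] L,
      (τ • φ = φ ∧ τ • ψ = cc L • ψ) ∨ (τ • φ = ψ ∧ τ • ψ = cc L • φ) := by
  have h3 := h (j.comp φ) (j.comp ψ)
  unfold Rigid at h3
  push Not at h3
  have h4 := h3 (fun h5 => h1 (emb_inj j h5)) (fun h5 => h2 (emb_inj j (by
    rw [h5, conj_comp])))
  obtain ⟨τ, hτ⟩ := h4
  obtain ⟨u, hu⟩ := exists_gal j τ
  simp only [hu, conj_comp] at hτ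
  by_cases h5 : u • φ = φ ∧ u • ψ = cc L • ψ
  · exact ⟨u, Or.inl h5⟩
  · have h6 := hτ (fun h7 h8 => h5 ⟨emb_inj j h7, emb_inj j h8⟩)
    exact ⟨u, Or.inr ⟨emb_inj j h6.1, emb_inj j h6.2⟩⟩

include j in
open Classical in
theorem quad_of {E : Type} [Field E] [NumberField E] (h : QuadraticTransitive E) :
    ∃ O : Finset (E →+* L), (∀ ψ, ψ ∈ O ↔ cc L • ψ ∉ O) ∧
      ∀ x ∈ O, ∀ y ∈ O, ∀ x' ∈ O, ∀ y' ∈ O, x ≠ y → x' ≠ y' → ∃ τ : L ≃ₐ[ℚ] L,
      (τ • x = x' ∧ τ • y = y') ∨ (τ • x = cc L • x' ∧ τ • y = cc L • y') ∨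
      (τ • x = y' ∧ τ • y = x') ∨ (τ • x = cc L • y' ∧ τ • y = cc L • x') := by
  obtain ⟨⟨d, q, hq, hd⟩, hone⟩ := h
  have hsq : ∀ φ : E →+* L, j (φ d) ^ 2 = (q : ℂ) := by
    intro φ
    rw [← map_pow, ← map_pow, hd, map_ratCast, map_ratCast]
  have hre : ∀ φ : E →+* L, (j (φ d)).re = 0 ∧ (j (φ d)).im ≠ 0 := by
    intro φ
    have h1 := hsq φ
    have h2 := congrArg Complex.re h1
    have h3 := congrArg Complex.im h1
    rw [sq, Complex.mul_re, Complex.ratCast_re] at h2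
    rw [sq, Complex.mul_im, Complex.ratCast_im] at h3
    have hq' : (q : ℝ) < 0 := by exact_mod_cast hq
    have h4 : (j (φ d)).im ≠ 0 := by
      intro h5
      rw [h5] at h2
      nlinarith [mul_self_nonneg (j (φ d)).re]
    refine ⟨?_, h4⟩
    have h5 : (j (φ d)).re * (j (φ d)).im = 0 := by linarith
    exact (mul_eq_zero.1 h5).resolve_right h4
  have hcc : ∀ φ : E →+* L, j ((cc L • φ) d) = starRingEnd ℂ (j (φ d)) := fun φ =>
    emb_cc j (φ d)
  let O : Finset (E →+* L) := Finset.univ.filter fun φ => 0 < (j (φ d)).im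
  have hmem : ∀ φ, φ ∈ O ↔ 0 < (j (φ d)).im := fun φ => by
    simp only [O, Finset.mem_filter, Finset.mem_univ, true_and]
  have hO : ∀ ψ, ψ ∈ O ↔ cc L • ψ ∉ O := by
    intro ψ
    rw [hmem, hmem, hcc, Complex.conj_im]
    constructor
    · intro h1 h2
      linarith
    · intro h1
      exact lt_of_le_of_ne (by linarith) (Ne.symm (hre ψ).2)
  have hval : ∀ φ ∈ O, ∀ ψ ∈ O, φ d = ψ d := by
    intro φ hφ ψ hψ
    rw [hmem] at hφ hψ
    apply j.injective
    have h1 := (hsq φ).trans (hsq ψ).symm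
    rcases sq_eq_sq_iff_eq_or_eq_neg.1 h1 with h2 | h2
    · exact h2
    · rw [h2, Complex.neg_im] at hφ
      linarith
  have hccne : ∀ φ : E →+* L, cc L (φ d) ≠ φ d := by
    intro φ h1
    have h2 := congrArg Complex.im (congrArg j h1)
    rw [emb_cc, Complex.conj_im] at h2
    exact (hre φ).2 (by linarith)
  refine ⟨O, hO, ?_⟩
  have hrig : ∀ φ ∈ O, ∀ ψ ∈ O, φ ≠ ψ → Rigid (j.comp φ) (j.comp ψ) := by
    intro φ hφ ψ hψ hne
    refine ⟨fun h1 => hne (emb_inj j h1).symm, fun h1 => ?_, fun τ => ⟨fun h1 => ?_, fun h1 => ?_⟩⟩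
    · rw [conj_comp] at h1
      rw [emb_inj j h1] at hψ
      exact (hO φ).1 hφ hψ
    · obtain ⟨u, hu⟩ := exists_gal j τ
      rw [hu, hu, conj_comp] at h1
      have e1 : u (φ d) = φ d := RingHom.congr_fun (emb_inj j h1.1) d
      have e2 : u (ψ d) = cc L (ψ d) := RingHom.congr_fun (emb_inj j h1.2) d
      rw [hval φ hφ ψ hψ, e2] at e1
      exact hccne ψ e1
    · obtain ⟨u, hu⟩ := exists_gal j τ
      rw [hu, hu, conj_comp] at h1
      have e1 : u (φ d) = ψ d := RingHom.congr_fun (emb_inj j h1.1) d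
      have e2 : u (ψ d) = cc L (φ d) := RingHom.congr_fun (emb_inj j h1.2) d
      rw [← hval φ hφ ψ hψ, e1, ← hval φ hφ ψ hψ] at e2
      exact hccne φ e2.symm
  intro x hx y hy x' hx' y' hy' hxy hxy'
  obtain ⟨τ, hτ⟩ := hone _ _ _ _ (hrig x hx y hy hxy) (hrig x' hx' y' hy' hxy')
  obtain ⟨u, hu⟩ := exists_gal j τ
  have hEq : ∀ a b : E →+* L, EqConj ((τ : ℂ →+* ℂ).comp (j.comp a)) (j.comp b) →
      (u • a = b ∨ u • a = cc L • b) := by
    intro a b hab
    rcases hab with h1 | h1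
    · rw [hu] at h1
      exact Or.inl (emb_inj j h1)
    · rw [hu, conj_comp] at h1
      exact Or.inr (emb_inj j h1)
  -- the signs agree
  have hsign : ∀ a ∈ O, ∀ b ∈ O, ∀ a' ∈ O, ∀ b' ∈ O, u • a = a' → u • b = cc L • b' → False := by
    intro a ha b hb a' ha' b' hb' h1 h2
    have e1 : u (a d) = a' d := RingHom.congr_fun h1 d
    have e2 : u (b d) = cc L (b' d) := RingHom.congr_fun h2 d
    rw [← hval a ha b hb, e1, hval a' ha' b' hb'] at e2
    exact hccne b' e2.symm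
  refine ⟨u, ?_⟩
  rcases hτ with ⟨h1, h2⟩ | ⟨h1, h2⟩
  · rcases hEq _ _ h1 with h3 | h3 <;> rcases hEq _ _ h2 with h4 | h4
    · exact Or.inl ⟨h3, h4⟩
    · exact (hsign x hx y hy x' hx' y' hy' h3 h4).elim
    · exact (hsign y hy x hx y' hy' x' hx' h4 h3).elim
    · exact Or.inr (Or.inl ⟨h3, h4⟩)
  · rcases hEq _ _ h1 with h3 | h3 <;> rcases hEq _ _ h2 with h4 | h4
    · exact Or.inr (Or.inr (Or.inl ⟨h3, h4⟩))
    · exact (hsign x hx y hy y' hy' x' hx' h3 h4).elim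
    · exact (hsign y hy x hx x' hx' y' hy' h4 h3).elim
    · exact Or.inr (Or.inr (Or.inr ⟨h3, h4⟩))

/-- The small functions of the family. -/
theorem small_family (hj : ∀ i, ∀ ψ : (A i).E →+* ℂ, ∃ φ : (A i).E →+* L, j.comp φ = ψ)
    (hi : ∀ i k, i ≠ k → Independent (A i).E (A k).E)
    (hgen : ∀ i, NoRigid (A i).E ∨ QuadraticTransitive (A i).E ∨ TwicePrime (A i).E)
    (m : YY A L → ℤ) (hm : ∀ y, m (cc L • y) = - m y)
    (hF : ∃ σ, FF (sY A j) (fun y => (m y : ℚ)) σ ≠ 0) :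
    Small (cc L) (fun σ : L ≃ₐ[ℚ] L => ∑ y, m y * sY A j y σ) := by
  classical
  refine small_of_sv (ccY_comm j) (sY A j) (sY2 A j) (sY3 A j) ?_
  have hmq : ∀ y, ((m (cc L • y) : ℤ) : ℚ) = - (m y : ℚ) := fun y => by
    rw [hm]
    push_cast
    rfl
  have hind := hind_of j hi
  obtain ⟨⟨i, φ⟩, hx⟩ := exists_pr_ne (sY A j) hF
  rcases hgen i with h | h | ⟨p, hp, hp2, hdeg⟩
  · exact sv_norigid j (m := fun y => (m y : ℚ)) hmq hind (x := ⟨i, φ⟩) hx
      fun ψ h1 h2 => norigid_of j h h1 h2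
  · obtain ⟨O, hO, hO2⟩ := quad_of j h
    exact sv_quad j (m := fun y => (m y : ℚ)) hmq hind hx O hO hO2
  · have : Fact p.Prime := ⟨hp⟩
    refine sv_prime j (m := fun y => (m y : ℚ)) hmq hind hx hp2 ?_
    rw [Fintype.card_congr (embEquiv j (hj i)), Embeddings.card, hdeg]

theorem small_two {G : Type} [Group G] [Fintype G] {c : G} {B B' : G → ℤ}
    (h : ∀ σ, B' σ = 2 * B σ) (hs : Small c B') : Small c B := by
  obtain ⟨n, N, h', hN, h0, hval, hodd, hrel⟩ := hs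
  refine ⟨fun u => 2 * n u, N, h', hN, h0, hval, hodd, fun g => ?_⟩
  rw [← hrel g]
  refine Finset.sum_congr rfl fun u _ => ?_
  rw [h]
  ring

theorem small_copies (hj : ∀ i, ∀ ψ : (A i).E →+* ℂ, ∃ φ : (A i).E →+* L, j.comp φ = ψ)
    (hi : ∀ i k, i ≠ k → Independent (A i).E (A k).E)
    (hgen : ∀ i, NoRigid (A i).E ∨ QuadraticTransitive (A i).E ∨ TwicePrime (A i).E)
    {J : Type} [Fintype J] (t : J → ι) {k : ℕ} (I : Fin k → Wt (copies A t) L)
    (hne : (fun σ : L ≃ₐ[ℚ] L =>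
      ∑ l, (⟨(copies A t).factor (I l).1, (I l).2⟩ : Letter L).s j σ) ≠ 0) :
    Small (cc L) (fun σ : L ≃ₐ[ℚ] L =>
      ∑ l, (⟨(copies A t).factor (I l).1, (I l).2⟩ : Letter L).s j σ) := by
  classical
  let y : Fin k → YY A L := fun l => ⟨t (I l).1, (I l).2⟩
  let N : YY A L → ℤ := fun z => ((Finset.univ.filter (fun l => y l = z)).card : ℤ)
  have hN : ∀ σ, ∑ z, N z * sY A j z σ = ∑ l, sY A j (y l) σ := by
    intro σ
    have h3 : ∀ z, N z * sY A j z σ = ∑ l, if y l = z then sY A j z σ else 0 := by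
      intro z
      rw [← Finset.sum_filter, Finset.sum_const, nsmul_eq_mul]
    rw [Finset.sum_congr rfl (fun z _ => h3 z), Finset.sum_comm]
    refine Finset.sum_congr rfl fun l _ => ?_
    rw [Finset.sum_ite_eq Finset.univ (y l), if_pos (Finset.mem_univ _)]
  have hN2 : ∀ σ, ∑ z, N (cc L • z) * sY A j z σ = - ∑ l, sY A j (y l) σ := by
    intro σ
    rw [← hN σ, ← Finset.sum_neg_distrib, ← Equiv.sum_comp (MulAction.toPerm (cc L))]
    refine Finset.sum_congr rfl fun z _ => ?_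
    rw [MulAction.toPerm_apply, ccY2, sY3]
    ring
  let m : YY A L → ℤ := fun z => N z - N (cc L • z)
  have hm : ∀ z, m (cc L • z) = - m z := by
    intro z
    simp only [m]
    rw [ccY2]
    ring
  have hmB : ∀ σ, ∑ z, m z * sY A j z σ = 2 * ∑ l, sY A j (y l) σ := by
    intro σ
    simp only [m, sub_mul, Finset.sum_sub_distrib, hN, hN2]
    ring
  refine small_two (B' := fun σ => ∑ z, m z * sY A j z σ) hmB
    (small_family j hj hi hgen m hm ?_)
  obtain ⟨σ, hσ⟩ := Function.ne_iff.1 hne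
  refine ⟨σ, fun h0 => hσ ?_⟩
  have h1 : ((∑ z, m z * sY A j z σ : ℤ) : ℚ) = 0 := by
    rw [← h0]
    unfold FF
    push_cast
    rfl
  have h2 : ∑ z, m z * sY A j z σ = 0 := by exact_mod_cast h1
  rw [hmB] at h2
  change ∑ l, sY A j (y l) σ = 0
  omega

/-- **De Rham-Betti classes are Hodge classes, for generic fields.** -/
theorem hodge_of_drb_generic (P : PeriodSystem) (hB : P.Bost) (hD : P.Deligne)
    (hi : ∀ i k, i ≠ k → Independent (A i).E (A k).E)
    (hgen : ∀ i, NoRigid (A i).E ∨ QuadraticTransitive (A i).E ∨ TwicePrime (A i).E)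
    {J : Type} [Fintype J] (t : J → ι) (k : ℕ) (f : (copies A t).H1 [⋀^Fin (2 * k)]→ₗ[ℚ] ℚ)
    (hf : P.IsDRB (copies A t) k f) : IsHodge (copies A t).per f := by
  rcases isEmpty_or_nonempty (Fin (2 * k)) with hκ | ⟨⟨k0⟩⟩
  · exact hodge_unit f
  rcases isEmpty_or_nonempty J with hI | ⟨⟨a0⟩⟩
  · have h1 : f = 0 := by
      ext v
      have h2 : v k0 = 0 := by
        funext i
        exact (hI.false i).elim
      rw [f.map_coord_zero k0 h2]
      rfl
    rw [h1]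
    exact hodge_zero _ _
  have hne : Nonempty (copies A (fun i : ι => i)).I := ⟨t a0⟩
  obtain ⟨L, _, _, _, _, j, hj⟩ := exists_cm (copies A (fun i : ι => i))
  exact hodge_of_drb_small j P hB hD (copies A t) (fun a => hj (t a)) k
    (fun I hI => small_copies j hj hi hgen t I hI) f hf

end

end Pool.Agent.W537.PC
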