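import Mathlib
import Pool.Agent.W537.PC.Gen

/-!
# Invariant subspaces of odd functions, and small functions
-/

set_option linter.unusedSectionVars false
set_option linter.unusedVariables false

open Finset

namespace Pool.Agent.W537.PC

noncomputable section

variable {G Y : Type} [Group G] [Fintype G] [Fintype Y] [MulAction G Y]

/-- The translate of a function. -/
def tr (u : G) (v : Y → ℚ) : Y → ℚ := fun y => v (u⁻¹ • y)

/-- The span of the translates. -/
def US (G : Type) [Group G] [MulAction G Y] (m : Y → ℚ) : Submodule ℚ (Y → ℚ) :=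
  Submodule.span ℚ (Set.range fun u : G => tr u m)

theorem self_mem (m : Y → ℚ) : m ∈ US G m := by
  refine Submodule.subset_span ⟨1, ?_⟩
  funext y
  change m ((1 : G)⁻¹ • y) = m y
  rw [inv_one, one_smul]

theorem tr_mem {m v : Y → ℚ} (hv : v ∈ US G m) (u : G) : tr u v ∈ US G m := by
  unfold US at *
  induction hv using Submodule.span_induction with
  | mem v hv =>
    obtain ⟨w, rfl⟩ := hv
    refine Submodule.subset_span ⟨u * w, ?_⟩
    funext y
    change m ((u * w)⁻¹ • y) = m (w⁻¹ • u⁻¹ • y)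
    rw [mul_inv_rev, mul_smul]
  | zero => exact Submodule.zero_mem _
  | add a b _ _ ha hb => exact Submodule.add_mem _ ha hb
  | smul q a _ ha => exact Submodule.smul_mem _ q ha

theorem odd_mem {m v : Y → ℚ} {c : G} (hc : ∀ g : G, g * c = c * g)
    (hm : ∀ y, m (c • y) = - m y) (hv : v ∈ US G m) (y : Y) : v (c • y) = - v y := by
  unfold US at hv
  induction hv using Submodule.span_induction with
  | mem v hv =>
    obtain ⟨w, rfl⟩ := hv
    change m (w⁻¹ • c • y) = - m (w⁻¹ • y)
    rw [← mul_smul, hc, mul_smul, hm]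
  | zero => simp
  | add a b _ _ ha hb => rw [Pi.add_apply, Pi.add_apply, ha, hb]; ring
  | smul q a _ ha => rw [Pi.smul_apply, Pi.smul_apply, ha, smul_neg]

theorem exists_riesz (U : Submodule ℚ (Y → ℚ)) (x : Y) :
    ∃ p ∈ U, ∀ v ∈ U, ∑ y, p y * v y = v x := by
  let T : U →ₗ[ℚ] Module.Dual ℚ U :=
    { toFun := fun p =>
        { toFun := fun v => ∑ y, (p : Y → ℚ) y * (v : Y → ℚ) y
          map_add' := fun a b => by
            simp only [Submodule.coe_add, Pi.add_apply, mul_add, Finset.sum_add_distrib]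
          map_smul' := fun q a => by
            simp only [Submodule.coe_smul, Pi.smul_apply, smul_eq_mul, RingHom.id_apply,
              Finset.mul_sum]
            exact Finset.sum_congr rfl fun y _ => by ring }
      map_add' := fun a b => by
        ext v
        change ∑ y, ((a + b : U) : Y → ℚ) y * (v : Y → ℚ) y =
          (∑ y, (a : Y → ℚ) y * (v : Y → ℚ) y) + ∑ y, (b : Y → ℚ) y * (v : Y → ℚ) y
        simp only [Submodule.coe_add, Pi.add_apply, add_mul, Finset.sum_add_distrib]
      map_smul' := fun q a => by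
        ext v
        change ∑ y, ((q • a : U) : Y → ℚ) y * (v : Y → ℚ) y =
          q * ∑ y, (a : Y → ℚ) y * (v : Y → ℚ) y
        simp only [Submodule.coe_smul, Pi.smul_apply, smul_eq_mul, Finset.mul_sum]
        exact Finset.sum_congr rfl fun y _ => by ring }
  have hT : Function.Injective T := by
    rw [injective_iff_map_eq_zero]
    intro p hp
    have h1 : ∑ y, (p : Y → ℚ) y * (p : Y → ℚ) y = 0 := LinearMap.congr_fun hp p
    have h2 := (Finset.sum_eq_zero_iff_of_nonneg (fun y _ => mul_self_nonneg _)).1 h1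
    apply Subtype.ext
    funext y
    exact mul_self_eq_zero.1 (h2 y (Finset.mem_univ y))
  have hs : Function.Surjective T :=
    (LinearMap.injective_iff_surjective_of_finrank_eq_finrank
      (Subspace.dual_finrank_eq (K := ℚ) (V := U)).symm).1 hT
  obtain ⟨p, hp⟩ := hs ((LinearMap.proj x).comp U.subtype)
  exact ⟨p, p.2, fun v hv => LinearMap.congr_fun hp ⟨v, hv⟩⟩

/-- The orthogonal projection of the coordinate vector. -/
def pr (U : Submodule ℚ (Y → ℚ)) (x : Y) : Y → ℚ := (exists_riesz U x).choose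

theorem pr_mem (U : Submodule ℚ (Y → ℚ)) (x : Y) : pr U x ∈ U := (exists_riesz U x).choose_spec.1

theorem pr_spec (U : Submodule ℚ (Y → ℚ)) (x : Y) {v : Y → ℚ} (hv : v ∈ U) :
    ∑ y, pr U x y * v y = v x := (exists_riesz U x).choose_spec.2 v hv

theorem pr_symm (U : Submodule ℚ (Y → ℚ)) (x y : Y) : pr U x y = pr U y x := by
  rw [← pr_spec U y (pr_mem U x), ← pr_spec U x (pr_mem U y)]
  exact Finset.sum_congr rfl fun z _ => mul_comm _ _

theorem pr_unique (U : Submodule ℚ (Y → ℚ)) (x : Y) {q : Y → ℚ} (hq : q ∈ U)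
    (h : ∀ v ∈ U, ∑ y, q y * v y = v x) : q = pr U x := by
  have h1 : q - pr U x ∈ U := Submodule.sub_mem _ hq (pr_mem U x)
  have h2 : ∑ y, (q - pr U x) y * (q - pr U x) y = 0 := by
    have h3 := h _ h1
    have h4 := pr_spec U x h1
    simp only [Pi.sub_apply] at h3 h4 ⊢
    calc ∑ y, (q y - pr U x y) * (q y - pr U x y)
        = ∑ y, q y * (q y - pr U x y) - ∑ y, pr U x y * (q y - pr U x y) := by
          rw [← Finset.sum_sub_distrib]
          exact Finset.sum_congr rfl fun y _ => by ring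
      _ = 0 := by rw [h3, h4, sub_self]
  have h3 := (Finset.sum_eq_zero_iff_of_nonneg (fun y _ => mul_self_nonneg _)).1 h2
  funext y
  have h4 := mul_self_eq_zero.1 (h3 y (Finset.mem_univ y))
  rw [Pi.sub_apply, sub_eq_zero] at h4
  exact h4

theorem pr_equiv (m : Y → ℚ) (u : G) (x : Y) : pr (US G m) (u • x) = tr u (pr (US G m) x) := by
  symm
  refine pr_unique _ _ (tr_mem (pr_mem _ _) u) fun v hv => ?_
  have h1 := pr_spec (US G m) x (tr_mem hv u⁻¹)
  change ∑ y, pr (US G m) x (u⁻¹ • y) * v y = _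
  rw [← Equiv.sum_comp (MulAction.toPerm u)]
  simp only [MulAction.toPerm_apply, inv_smul_smul]
  have h2 : ∀ y : Y, tr u⁻¹ v y = v (u • y) := fun y => by
    change v ((u⁻¹)⁻¹ • y) = _
    rw [inv_inv]
  simp only [h2] at h1
  exact h1

theorem pr_inv (m : Y → ℚ) (u : G) (x y : Y) :
    pr (US G m) (u • x) (u • y) = pr (US G m) x y := by
  rw [pr_equiv]
  change pr (US G m) x (u⁻¹ • u • y) = _
  rw [inv_smul_smul]

variable {c : G} (hc : ∀ g : G, g * c = c * g) (hc2 : ∀ y : Y, c • c • y = y) {m : Y → ℚ}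
  (hm : ∀ y, m (c • y) = - m y)

include hc hm in
theorem pr_odd (x y : Y) : pr (US G m) x (c • y) = - pr (US G m) x y :=
  odd_mem hc hm (pr_mem _ _) y

include hc hm in
theorem pr_odd' (x y : Y) : pr (US G m) (c • x) y = - pr (US G m) x y := by
  rw [pr_symm, pr_odd hc hm, pr_symm]

include hc hm in
theorem pr_zero_of_flip {x y : Y} (τ : G) (h1 : τ • x = x) (h2 : τ • y = c • y) :
    pr (US G m) x y = 0 := by
  have h3 := pr_inv m τ x y
  rw [h1, h2, pr_odd hc hm] at h3
  linarith

include hc hm in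
theorem pr_zero_of_swap {x y : Y} (τ : G) (h1 : τ • x = y) (h2 : τ • y = c • x) :
    pr (US G m) x y = 0 := by
  have h3 := pr_inv m τ x y
  rw [h1, h2, pr_odd hc hm, pr_symm] at h3
  linarith

variable (s : Y → G → ℤ)

/-- The type of a function. -/
def FF (v : Y → ℚ) (σ : G) : ℚ := ∑ y, v y * s y σ

theorem FF_tr (hs2 : ∀ u y σ, s (u • y) σ = s y (σ * u)) (u : G) (v : Y → ℚ) (σ : G) :
    FF s (tr u v) σ = FF s v (σ * u) := by
  unfold FF
  rw [← Equiv.sum_comp (MulAction.toPerm u)]
  refine Finset.sum_congr rfl fun y _ => ?_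
  rw [MulAction.toPerm_apply, hs2]
  change v (u⁻¹ • u • y) * _ = _
  rw [inv_smul_smul]

theorem FF_add (v w : Y → ℚ) (σ : G) : FF s (v + w) σ = FF s v σ + FF s w σ := by
  unfold FF
  rw [← Finset.sum_add_distrib]
  exact Finset.sum_congr rfl fun y _ => by rw [Pi.add_apply, add_mul]

theorem FF_smul (q : ℚ) (v : Y → ℚ) (σ : G) : FF s (q • v) σ = q * FF s v σ := by
  unfold FF
  rw [Finset.mul_sum]
  exact Finset.sum_congr rfl fun y _ => by rw [Pi.smul_apply, smul_eq_mul, mul_assoc]

theorem FF_sum {ι : Type*} (t : Finset ι) (v : ι → Y → ℚ) (σ : G) :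
    FF s (∑ i ∈ t, v i) σ = ∑ i ∈ t, FF s (v i) σ := by
  classical
  induction t using Finset.induction_on with
  | empty => simp [FF]
  | insert a t ha ih => rw [Finset.sum_insert ha, Finset.sum_insert ha, FF_add, ih]

/-- Some projection has a nonzero type. -/
theorem exists_pr_ne (hF : ∃ σ, FF s m σ ≠ 0) : ∃ x σ, FF s (pr (US G m) x) σ ≠ 0 := by
  by_contra hcon
  push Not at hcon
  obtain ⟨σ, hσ⟩ := hF
  apply hσ
  have h1 : m = ∑ z, m z • pr (US G m) z := by
    funext y
    rw [Finset.sum_apply, ← pr_spec (US G m) y (self_mem m)]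
    refine Finset.sum_congr rfl fun z _ => ?_
    rw [Pi.smul_apply, smul_eq_mul, pr_symm, mul_comm]
  rw [h1, FF_sum]
  refine Finset.sum_eq_zero fun z _ => ?_
  rw [FF_smul, hcon, mul_zero]

/-- The small vectors in the types of the span. -/
def SV (m : Y → ℚ) : Prop :=
  ∃ v ∈ US G m, ∃ q : ℚ, q ≠ 0 ∧ ∃ h : G → ℤ, h ≠ 0 ∧ (∀ g, h g = 0 ∨ h g = 1 ∨ h g = -1) ∧
    ∀ σ, FF s v σ = q * h σ

variable (hs1 : ∀ y σ, s y σ = 1 ∨ s y σ = -1) (hs2 : ∀ u y σ, s (u • y) σ = s y (σ * u))
  (hs3 : ∀ y σ, s (c • y) σ = - s y σ)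

include hs1 in
theorem s_ne (y : Y) : s y ≠ 0 := by
  intro h
  have h1 := congrFun h 1
  rcases hs1 y 1 with h2 | h2 <;> rw [h2] at h1 <;> simp at h1

include hs1 in
theorem s_val (y : Y) (σ : G) : s y σ = 0 ∨ s y σ = 1 ∨ s y σ = -1 := Or.inr (hs1 y σ)

/-- The type of an odd function supported on `O` and its conjugate. -/
theorem FF_half [DecidableEq Y] (O : Finset Y) (hO : ∀ y ∈ O, c • y ∉ O)
    (hc2 : ∀ y : Y, c • c • y = y) (hs3 : ∀ y σ, s (c • y) σ = - s y σ) (v : Y → ℚ)
    (hv : ∀ y, v (c • y) = - v y) (hsupp : ∀ y, y ∉ O → c • y ∉ O → v y = 0) (σ : G) :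
    FF s v σ = 2 * ∑ y ∈ O, v y * s y σ := by
  unfold FF
  have hinj : Function.Injective (fun y : Y => c • y) := MulAction.injective c
  have h1 : ∑ y, v y * (s y σ : ℚ) = ∑ y ∈ O ∪ O.image (fun y => c • y), v y * (s y σ : ℚ) := by
    symm
    refine Finset.sum_subset (Finset.subset_univ _) fun y _ hy => ?_
    rw [Finset.mem_union, not_or] at hy
    rw [hsupp y hy.1, zero_mul]
    intro h
    exact hy.2 (Finset.mem_image.2 ⟨c • y, h, hc2 y⟩)
  rw [h1, Finset.sum_union, Finset.sum_image (fun a _ b _ h => hinj h), two_mul]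
  · congr 1
    refine Finset.sum_congr rfl fun y _ => ?_
    rw [hv, hs3]
    push_cast
    ring
  · rw [Finset.disjoint_left]
    intro y hy hy2
    obtain ⟨z, hz, rfl⟩ := Finset.mem_image.1 hy2
    exact hO z hz hy

include hc hc2 hm hs1 hs3 in
theorem sv_case1 {x : Y} (hx : c • x ≠ x) (hF : ∃ σ, FF s (pr (US G m) x) σ ≠ 0)
    (h : ∀ y, y ≠ x → y ≠ c • x → pr (US G m) x y = 0) : SV (G := G) s m := by
  classical
  have h1 : ∀ σ, FF s (pr (US G m) x) σ = (2 * pr (US G m) x x) * s x σ := by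
    intro σ
    rw [FF_half s {x} (by
      intro y hy
      rw [Finset.mem_singleton] at hy ⊢
      rw [hy]
      exact hx) hc2 hs3 _ (pr_odd hc hm x) (by
      intro y hy hy2
      rw [Finset.mem_singleton] at hy hy2
      refine h y hy fun h2 => hy2 ?_
      rw [h2, hc2]), Finset.sum_singleton]
    ring
  obtain ⟨σ, hσ⟩ := hF
  refine ⟨_, pr_mem _ x, 2 * pr (US G m) x x, ?_, s x, s_ne s hs1 x, s_val s hs1 x, h1⟩
  intro h0
  rw [h1, h0, zero_mul] at hσ
  exact hσ rfl

include hc hc2 hm hs1 hs2 hs3 in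
theorem sv_case2 {x : Y} (hF : ∃ σ, FF s (pr (US G m) x) σ ≠ 0) (O : Finset Y) (hxO : x ∈ O)
    (hO : ∀ y ∈ O, c • y ∉ O)
    (hsupp : ∀ z ∈ O, ∀ y, y ∉ O → c • y ∉ O → pr (US G m) z y = 0)
    (hG : ∀ u : G, ∀ z ∈ O, u • z ∈ O ∨ c • u • z ∈ O)
    {α β : ℚ} (hα : ∀ z ∈ O, pr (US G m) z z = α)
    (hβ : ∀ y ∈ O, ∀ z ∈ O, y ≠ z → pr (US G m) y z = β) : SV (G := G) s m := by
  classical
  have hhalf : ∀ z ∈ O, ∀ σ, FF s (pr (US G m) z) σ = 2 * ∑ y ∈ O, pr (US G m) z y * s y σ :=
    fun z hz σ => FF_half s O hO hc2 hs3 _ (pr_odd hc hm z) (hsupp z hz) σ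
  obtain ⟨σ0, hσ0⟩ := hF
  by_cases hαβ : α = β
  · -- the projections are all equal
    have h1 : ∀ z ∈ O, pr (US G m) z = pr (US G m) x := by
      intro z hz
      funext y
      have hval : ∀ w ∈ O, ∀ y ∈ O, pr (US G m) w y = α := by
        intro w hw y hy
        by_cases hwy : w = y
        · rw [← hwy, hα w hw]
        · rw [hβ w hw y hy hwy, hαβ]
      by_cases hy : y ∈ O
      · rw [hval z hz y hy, hval x hxO y hy]
      · by_cases hy2 : c • y ∈ O
        · have e1 := pr_odd hc hm (m := m) z y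
          have e2 := pr_odd hc hm (m := m) x y
          rw [hval z hz _ hy2] at e1
          rw [hval x hxO _ hy2] at e2
          linarith
        · rw [hsupp z hz y hy hy2, hsupp x hxO y hy hy2]
    have h2 : ∀ σ, FF s (pr (US G m) x) σ = FF s (pr (US G m) x) 1 ∨
        FF s (pr (US G m) x) σ = - FF s (pr (US G m) x) 1 := by
      intro σ
      have h3 : FF s (pr (US G m) x) σ = FF s (pr (US G m) (σ • x)) 1 := by
        rw [pr_equiv, FF_tr s hs2, one_mul]
      rcases hG σ x hxO with h4 | h4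
      · left
        rw [h3, h1 _ h4]
      · right
        have h5 : pr (US G m) (σ • x) = (-1 : ℚ) • pr (US G m) (c • σ • x) := by
          funext y
          rw [Pi.smul_apply, pr_odd' hc hm]
          simp
        rw [h3, h5, FF_smul, h1 _ h4]
        ring
    have hq : FF s (pr (US G m) x) 1 ≠ 0 := by
      intro h0
      rcases h2 σ0 with h3 | h3 <;> rw [h3, h0] at hσ0 <;> simp at hσ0
    refine ⟨_, pr_mem _ x, FF s (pr (US G m) x) 1, hq,
      fun σ => if FF s (pr (US G m) x) σ = FF s (pr (US G m) x) 1 then 1 else -1, ?_, ?_, ?_⟩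
    · intro h0
      have h3 := congrFun h0 1
      simp at h3
    · intro σ
      by_cases h3 : FF s (pr (US G m) x) σ = FF s (pr (US G m) x) 1 <;> simp [h3]
    · intro σ
      by_cases h3 : FF s (pr (US G m) x) σ = FF s (pr (US G m) x) 1
      · dsimp only
        rw [if_pos h3, h3]
        simp
      · dsimp only
        rw [if_neg h3, (h2 σ).resolve_left h3]
        push_cast
        ring
  · -- differences of coordinate vectors
    by_cases hdiff : ∃ y ∈ O, ∃ z ∈ O, s y ≠ s z
    · obtain ⟨y, hy, z, hz, hyz⟩ := hdiff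
      have hne : y ≠ z := fun h => hyz (by rw [h])
      have hval : ∀ w ∈ O, (pr (US G m) y - pr (US G m) z) w =
          (α - β) * ((if w = y then 1 else 0) - (if w = z then 1 else 0)) := by
        intro w hw
        rw [Pi.sub_apply]
        by_cases h1 : w = y
        · subst h1
          rw [hα w hw, hβ z hz w hw (Ne.symm hne), if_pos rfl, if_neg hne]
          ring
        · by_cases h2 : w = z
          · subst h2
            rw [hα w hw, hβ y hy w hw hne, if_neg h1, if_pos rfl]
            ring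
          · rw [hβ y hy w hw (Ne.symm h1), hβ z hz w hw (Ne.symm h2), if_neg h1, if_neg h2]
            ring
      have h1 : ∀ σ, FF s (pr (US G m) y - pr (US G m) z) σ =
          2 * ((α - β) * ((s y σ : ℚ) - s z σ)) := by
        intro σ
        rw [FF_half s O hO hc2 hs3 _ (fun w => by
          rw [Pi.sub_apply, Pi.sub_apply, pr_odd hc hm, pr_odd hc hm]
          ring) (fun w hw hw2 => by
          rw [Pi.sub_apply, hsupp y hy w hw hw2, hsupp z hz w hw hw2, sub_zero]) σ]
        congr 1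
        rw [Finset.sum_congr rfl (fun w hw => by rw [hval w hw])]
        have h2 : ∀ w, (α - β) * ((if w = y then (1 : ℚ) else 0) - (if w = z then 1 else 0)) *
            (s w σ : ℚ) = (α - β) * ((if w = y then (s w σ : ℚ) else 0) -
              (if w = z then (s w σ : ℚ) else 0)) := by
          intro w
          split_ifs <;> ring
        rw [Finset.sum_congr rfl (fun w _ => h2 w), ← Finset.mul_sum, Finset.sum_sub_distrib,
          Finset.sum_ite_eq' O y, Finset.sum_ite_eq' O z, if_pos hy, if_pos hz]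
      have h4 : ∀ σ, ∃ t : ℤ, (s y σ - s z σ) = 2 * t ∧ (t = 0 ∨ t = 1 ∨ t = -1) := by
        intro σ
        rcases hs1 y σ with h5 | h5 <;> rcases hs1 z σ with h6 | h6 <;> rw [h5, h6]
        · exact ⟨0, by norm_num, by norm_num⟩
        · exact ⟨1, by norm_num, by norm_num⟩
        · exact ⟨-1, by norm_num, by norm_num⟩
        · exact ⟨0, by norm_num, by norm_num⟩
      choose h hh hh' using h4
      refine ⟨_, Submodule.sub_mem _ (pr_mem _ y) (pr_mem _ z), 4 * (α - β),
        mul_ne_zero (by norm_num) (sub_ne_zero.2 hαβ), h, ?_, hh', ?_⟩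
      · intro h0
        apply hyz
        funext σ
        have h5 := hh σ
        have h6 := congrFun h0 σ
        change h σ = 0 at h6
        omega
      · intro σ
        rw [h1]
        have h5 : ((s y σ : ℚ) - s z σ) = 2 * h σ := by exact_mod_cast hh σ
        rw [h5]
        ring
    · push Not at hdiff
      have h1 : ∀ σ, FF s (pr (US G m) x) σ = (2 * ∑ y ∈ O, pr (US G m) x y) * s x σ := by
        intro σ
        rw [hhalf x hxO σ, mul_assoc, Finset.sum_mul]
        congr 1
        refine Finset.sum_congr rfl fun y hy => ?_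
        rw [hdiff y hy x hxO]
      refine ⟨_, pr_mem _ x, 2 * ∑ y ∈ O, pr (US G m) x y, ?_, s x, s_ne s hs1 x,
        s_val s hs1 x, h1⟩
      intro h0
      rw [h1, h0, zero_mul] at hσ0
      exact hσ0 rfl

include hc hs2 hs3 in
/-- From small vectors to small functions. -/
theorem small_of_sv {m : Y → ℤ} (h : SV (G := G) s (fun y => (m y : ℚ))) :
    Small c (fun σ : G => ∑ y, m y * s y σ) := by
  classical
  obtain ⟨v, hv, q, hq, h, h0, hval, hrel⟩ := h
  unfold US at hv
  rw [Submodule.mem_span_range_iff_exists_fun] at hv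
  obtain ⟨a, ha⟩ := hv
  have h1 : ∀ σ, ∑ u, a u * ((∑ y, m y * s y (σ * u) : ℤ) : ℚ) = q * h σ := by
    intro σ
    rw [← hrel, ← ha, FF_sum]
    refine Finset.sum_congr rfl fun u _ => ?_
    rw [FF_smul, FF_tr s hs2]
    unfold FF
    push_cast
    rfl
  have hodd : ∀ σ, h (c * σ) = - h σ := by
    intro σ
    have e1 := h1 (c * σ)
    have e2 := h1 σ
    have e3 : ∀ u y, s y (c * σ * u) = - s y (σ * u) := by
      intro u y
      rw [mul_assoc, ← hc, ← hs2, hs3]
    simp only [e3] at e1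
    have e4 : ∑ u, a u * ((∑ y, m y * -s y (σ * u) : ℤ) : ℚ) =
        - ∑ u, a u * ((∑ y, m y * s y (σ * u) : ℤ) : ℚ) := by
      rw [← Finset.sum_neg_distrib]
      refine Finset.sum_congr rfl fun u _ => ?_
      simp only [mul_neg, Finset.sum_neg_distrib, Int.cast_neg]
    rw [e4, e2] at e1
    have e5 : q * ((h (c * σ) : ℚ) + h σ) = 0 := by linarith
    have e6 := (mul_eq_zero.1 e5).resolve_left hq
    have e7 : h (c * σ) + h σ = 0 := by exact_mod_cast e6
    linarith
  -- denominators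
  let D : ℕ := q.den * ∏ u, (a u).den
  have hD : 0 < D := Nat.mul_pos q.den_pos (Finset.prod_pos fun u _ => (a u).den_pos)
  have hn : ∀ u, ∃ k : ℤ, (k : ℚ) = D * a u := by
    intro u
    obtain ⟨k, hk⟩ := Finset.dvd_prod_of_mem (fun u => (a u).den) (Finset.mem_univ u)
    refine ⟨q.den * k * (a u).num, ?_⟩
    have h3 : (D : ℚ) = q.den * ((a u).den * k) := by
      simp only [D]
      rw [hk]
      push_cast
      rfl
    have h4 := Rat.mul_den_eq_num (a u)
    rw [h3]
    push_cast
    linear_combination -(q.den * k : ℚ) * h4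
  choose n hn using hn
  obtain ⟨N, hN⟩ : ∃ N : ℤ, (N : ℚ) = D * q := by
    refine ⟨(∏ u, (a u).den : ℕ) * q.num, ?_⟩
    have h4 := Rat.mul_den_eq_num q
    simp only [D]
    push_cast
    rw [← h4]
    ring
  have hN0 : N ≠ 0 := by
    intro h5
    rw [h5, Int.cast_zero] at hN
    have := mul_ne_zero (Nat.cast_ne_zero.2 hD.ne' : (D : ℚ) ≠ 0) hq
    exact this hN.symm
  have hfin : ∀ σ, ∑ u, n u * (∑ y, m y * s y (σ * u)) = N * h σ := by
    intro σ
    have e1 : ((∑ u, n u * (∑ y, m y * s y (σ * u)) : ℤ) : ℚ) = ((N * h σ : ℤ) : ℚ) := by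
      push_cast
      rw [hN, mul_assoc, ← h1, Finset.mul_sum]
      refine Finset.sum_congr rfl fun u _ => ?_
      rw [hn]
      push_cast
      ring
    exact_mod_cast e1
  rcases lt_or_gt_of_ne hN0 with hneg | hpos
  · refine ⟨fun u => - n u, (-N).toNat, h, by omega, h0, hval, hodd, fun σ => ?_⟩
    have e1 : (((-N).toNat : ℕ) : ℤ) = -N := Int.toNat_of_nonneg (by omega)
    rw [e1]
    simp only [neg_mul, Finset.sum_neg_distrib]
    rw [hfin]
  · refine ⟨n, N.toNat, h, by omega, h0, hval, hodd, fun σ => ?_⟩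
    have e1 : ((N.toNat : ℕ) : ℤ) = N := Int.toNat_of_nonneg (by omega)
    rw [e1]
    exact hfin σ

end

end Pool.Agent.W537.PC
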