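import Pool.Agent.W537.PC.Cx

/-!
# The periods of balanced words
-/

set_option linter.unusedSectionVars false
set_option linter.unusedVariables false

namespace Pool.Agent.W537.PC

open NumberField Pool.Agent.H204R3.CM Pool.Agent.W547.KB Module

noncomputable section

/-- A CM type with an embedding of its field into `L`. -/
structure Letter (L : Type) [Field L] where
  /-- the CM type -/
  B : CMPair
  /-- the embedding -/
  φ : B.E →+* L

variable {L : Type} [Field L] [NumberField L] [IsCMField L] [IsGalois ℚ L] (j : L →+* ℂ)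

open Classical in
/-- The sign of a letter at an automorphism. -/
def Letter.s (x : Letter L) (σ : L ≃ₐ[ℚ] L) : ℤ := if j.comp (σ • x.φ) ∈ x.B.Φ then 1 else -1

theorem Letter.s_pos (x : Letter L) (σ : L ≃ₐ[ℚ] L) (h : j.comp (σ • x.φ) ∈ x.B.Φ) :
    x.s j σ = 1 := if_pos h

theorem Letter.s_neg (x : Letter L) (σ : L ≃ₐ[ℚ] L) (h : j.comp (σ • x.φ) ∉ x.B.Φ) :
    x.s j σ = -1 := if_neg h

theorem Letter.s_cases (x : Letter L) (σ : L ≃ₐ[ℚ] L) : x.s j σ = 1 ∨ x.s j σ = -1 := by
  by_cases h : j.comp (σ • x.φ) ∈ x.B.Φ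
  · exact Or.inl (x.s_pos j σ h)
  · exact Or.inr (x.s_neg j σ h)

/-- The period of a letter. -/
def PeriodSystem.tl (P : PeriodSystem) (x : Letter L) : ℂ := P.θ x.B (j.comp x.φ)

/-- The abelian variety belonging to a word, one factor for every letter. -/
abbrev wordX {m : ℕ} (w : Fin m → Letter L) : CMAV := ⟨Fin m, fun k => (w k).B⟩

/-- The weights of the letters. -/
def wordI {m : ℕ} (w : Fin m → Letter L) (k : Fin m) : Wt (wordX w) L := ⟨k, (w k).φ⟩

/-- The complex coefficients of the trace of the monomial of a word. -/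
def wordM {m : ℕ} (w : Fin m → Letter L) :
    MultilinearMap ℂ (fun _ : Fin m => Wt (wordX w) ℂ → ℂ) ℂ :=
  ∑ σ : L ≃ₐ[ℚ] L, detM (fun _ => 1)
    (fun l => (⟨l, j.comp (σ • (w l).φ)⟩ : Wt (wordX w) ℂ))

theorem wordM_chi {m : ℕ} (w : Fin m → Letter L) (v : Fin m → (wordX w).H1) :
    wordM j w (fun l => chiX (v l)) = ((trForm 1 (wordI w) v : ℚ) : ℂ) := by
  unfold wordM
  rw [_root_.sum_apply, trForm_apply, one_mul]
  have h1 := trace_eq_sum_automorphisms (K := ℚ) (L := L) (mono (wordI w) v)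
  have h2 := congrArg j h1
  rw [map_sum, eq_ratCast, map_ratCast] at h2
  rw [h2]
  refine Finset.sum_congr rfl fun σ _ => ?_
  rw [detM_apply, mono_eq_det]
  change _ = ((j.comp (σ : L →+* L)) (Matrix.det (Matrix.of fun k l => ev (v k) (wordI w l))))
  rw [RingHom.map_det]
  congr 1
  ext k l
  rw [Matrix.of_apply, one_mul]
  rfl

theorem wordM_e {m : ℕ} (w : Fin m → Letter L) :
    ∃ n : ℕ, 0 < n ∧ wordM j w (eI (fun l => (⟨l, j.comp (w l).φ⟩ : Wt (wordX w) ℂ))) = n := by
  classical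
  refine ⟨(Finset.univ.filter fun σ : L ≃ₐ[ℚ] L => ∀ l, σ • (w l).φ = (w l).φ).card,
    Finset.card_pos.2 ⟨1, by
      rw [Finset.mem_filter]
      exact ⟨Finset.mem_univ _, fun l => one_smul _ _⟩⟩, ?_⟩
  unfold wordM
  rw [_root_.sum_apply, Finset.card_filter]
  push_cast
  refine Finset.sum_congr rfl fun σ _ => ?_
  rw [detM_apply]
  have h1 : (Matrix.of fun k l => (1 : ℂ) *
      eI (fun l => (⟨l, j.comp (w l).φ⟩ : Wt (wordX w) ℂ)) k ⟨l, j.comp (σ • (w l).φ)⟩) =
      Matrix.diagonal fun k => if σ • (w k).φ = (w k).φ then (1 : ℂ) else 0 := by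
    ext k l
    rw [Matrix.of_apply, one_mul]
    by_cases hkl : k = l
    · subst hkl
      rw [Matrix.diagonal_apply_eq]
      by_cases h : σ • (w k).φ = (w k).φ
      · rw [if_pos h, h]
        exact eI_same _ _ rfl
      · rw [if_neg h]
        refine eI_ne _ _ fun h2 => h ?_
        have h3 := eq_of_heq (Sigma.mk.inj h2).2
        refine RingHom.ext fun x => ?_
        exact j.injective (RingHom.congr_fun h3 x)
    · rw [Matrix.diagonal_apply_ne _ hkl]
      exact eI_ne _ _ fun h2 => hkl (Sigma.mk.inj h2).1.symm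
  rw [h1, Matrix.det_diagonal]
  by_cases h : ∀ l, σ • (w l).φ = (w l).φ
  · rw [if_pos h]
    exact Finset.prod_eq_one fun l _ => if_pos (h l)
  · rw [if_neg h]
    push Not at h
    obtain ⟨l, hl⟩ := h
    exact Finset.prod_eq_zero (Finset.mem_univ l) (if_neg hl)

variable (P : PeriodSystem)

/-- The periods of balanced words. -/
theorem word_alg (hD : P.Deligne) {m : ℕ} (w : Fin (2 * m) → Letter L)
    (hw : ∀ σ, ∑ k, (w k).s j σ = 0) :
    (∏ k, P.tl j (w k)) / (2 * Real.pi * Complex.I) ^ m ∈ algebraicClosure ℚ ℂ := by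
  classical
  have h1 : Balanced (fun k => St j (wordI w k)) := by
    intro σ
    refine Eq.trans (Finset.sum_congr rfl fun k _ => ?_) (hw σ)
    by_cases h : σ ∈ St j (wordI w k)
    · rw [if_pos h]
      exact ((w k).s_pos j σ h).symm
    · rw [if_neg h]
      exact ((w k).s_neg j σ h).symm
  have h2 : P.IsDRB (wordX w) m (trForm 1 (wordI w)) :=
    hD (wordX w) m (trForm 1 (wordI w)) (isHodge_trForm j (wordI w) h1 1)
  obtain ⟨n, hn, hn'⟩ := wordM_e j w
  have h3 := alg_cx (X := wordX w) P (k := m) (f := trForm 1 (wordI w)) (M := wordM j w)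
    (wordM_chi j w) h2 (fun l => (⟨l, j.comp (w l).φ⟩ : Wt (wordX w) ℂ)) (by
    rw [hn']
    exact_mod_cast hn.ne') (by
    rw [hn']
    exact natCast_mem _ n)
  exact h3

/-- The normalised period of a letter. -/
def PeriodSystem.rl (P : PeriodSystem) (x : Letter L) : ℂ :=
  P.tl j x ^ 2 / (2 * Real.pi * Complex.I)

theorem PeriodSystem.rl_ne (x : Letter L) : P.rl j x ≠ 0 :=
  div_ne_zero (pow_ne_zero _ (P.ne_zero _ _)) Complex.two_pi_I_ne_zero

theorem even_of_signs {n : ℕ} (s : Fin n → ℤ) (hs : ∀ k, s k = 1 ∨ s k = -1)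
    (h : ∑ k, s k = 0) : ∃ m, n = 2 * m := by
  have h1 : ∀ k, ∃ t : ℤ, s k = 1 + 2 * t := by
    intro k
    rcases hs k with h | h
    · exact ⟨0, by rw [h]; ring⟩
    · exact ⟨-1, by rw [h]; ring⟩
  choose t ht using h1
  rw [Finset.sum_congr rfl (fun k _ => ht k), Finset.sum_add_distrib, ← Finset.mul_sum] at h
  simp only [Finset.sum_const, Finset.card_univ, Fintype.card_fin, nsmul_eq_mul, mul_one] at h
  refine ⟨n / 2, ?_⟩
  omega

theorem word_rl (hD : P.Deligne) (w : Multiset (Letter L))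
    (hw : ∀ σ, (w.map (fun x => x.s j σ)).sum = 0) :
    (w.map (P.rl j)).prod ∈ algebraicClosure ℚ ℂ := by
  obtain ⟨l, rfl⟩ := Quotient.exists_rep w
  obtain ⟨n, g, rfl⟩ : ∃ (n : ℕ) (g : Fin n → Letter L), l = List.ofFn g :=
    ⟨l.length, l.get, (List.ofFn_get l).symm⟩
  have h1 : ∀ (F : Letter L → ℤ), (Multiset.map F (Quotient.mk _ (List.ofFn g))).sum =
      ∑ k, F (g k) := by
    intro F
    change (Multiset.map F (List.ofFn g : Multiset (Letter L))).sum = _
    rw [Multiset.map_coe, Multiset.sum_coe, List.map_ofFn, List.sum_ofFn]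
    rfl
  have h2 : (Multiset.map (P.rl j) (Quotient.mk _ (List.ofFn g))).prod = ∏ k, P.rl j (g k) := by
    change (Multiset.map (P.rl j) (List.ofFn g : Multiset (Letter L))).prod = _
    rw [Multiset.map_coe, Multiset.prod_coe, List.map_ofFn, List.prod_ofFn]
    rfl
  simp only [h1] at hw
  rw [h2]
  obtain ⟨m, rfl⟩ := even_of_signs (fun k => (g k).s j 1) (fun k => (g k).s_cases j 1) (hw 1)
  have h3 := pow_mem (word_alg j P hD g hw) 2
  have h4 : ((∏ k, P.tl j (g k)) / (2 * Real.pi * Complex.I) ^ m) ^ 2 = ∏ k, P.rl j (g k) := by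
    unfold PeriodSystem.rl
    rw [Finset.prod_div_distrib, Finset.prod_pow, div_pow, Finset.prod_const, Finset.card_univ,
      Fintype.card_fin, ← pow_mul, mul_comm m 2]
  rwa [h4] at h3

end

end Pool.Agent.W537.PC
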